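import Pool.Agent.Lib.MP_813774_gt.Metric1

/-!
The standard half turns are future time-like.
-/

set_option autoImplicit false

namespace Pool.Agent.Lib.MP_813774_gt

open Finset

variable {n : ℕ}

theorem timelike_aux (hn : 2 ≤ n) (x v : Fin n → ℂ) (hx : ∀ m, ‖x m‖ < 1) (a b : Fin n)
    (hab : a ≠ b) (C c s lam : ℝ) (hlam : 0 < lam) (hcs : s ^ 2 + c ^ 2 = 1)
    (xar : (x a).re = C - 1 / n * c) (xai : (x a).im = - (1 / n * s))
    (xbr : (x b).re = C + 1 / n * c) (xbi : (x b).im = 1 / n * s)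
    (var : (v a).re = lam * (1 / n * s)) (vai : (v a).im = - (lam * (1 / n * c)))
    (vbr : (v b).re = - (lam * (1 / n * s))) (vbi : (v b).im = lam * (1 / n * c))
    (hv : ∀ m, m ≠ a → m ≠ b → v m = 0)
    (hcut : ∀ k l, (k, l) ≠ (a, b) → (k, l) ≠ (b, a) → cut n k l x = 0) :
    Gf n x v v < 0 ∧ 0 < Om n x v := by
  have hn2 : (2 : ℝ) ≤ n := by exact_mod_cast hn
  have hn0 : (0 : ℝ) < n := by linarith
  set r : ℝ := 1 / n with hr
  have hr0 : 0 < r := by positivity
  have hrn : r * n = 1 := by rw [hr]; field_simp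
  have hr1 : r ≤ 1 / 2 := by rw [hr]; exact one_div_le_one_div_of_le (by norm_num) hn2
  set p : ℝ := cut n a b x with hp
  have hp0 : 0 ≤ p := cut_nonneg a b x
  have hp1 : p ≤ 1 := cut_le_one a b x
  have hp' : cut n b a x = p := cut_comm b a x
  have hne : ((a, b) : Fin n × Fin n) ≠ (b, a) := fun h => hab (Prod.ext_iff.1 h).1
  have sum2 : ∀ f : Fin n × Fin n → ℝ, (∀ q : Fin n × Fin n, cut n q.1 q.2 x = 0 → f q = 0) →
      ∑ q, f q = f (a, b) + f (b, a) := by
    intro f hf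
    exact Fintype.sum_eq_add (a, b) (b, a) hne (fun q hq => hf q (hcut q.1 q.2 hq.1 hq.2))
  have angab : ang a b x v = 4 * lam * r ^ 2 := by
    simp only [ang, xar, xai, xbr, xbi, var, vai, vbr, vbi]
    linear_combination (4 * lam * r ^ 2) * hcs
  have angba : ang b a x v = 4 * lam * r ^ 2 := by
    simp only [ang, xar, xai, xbr, xbi, var, vai, vbr, vbi]
    linear_combination (4 * lam * r ^ 2) * hcs
  have dab : dsq a b x = 4 * r ^ 2 := by
    simp only [dsq, xar, xai, xbr, xbi]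
    linear_combination (4 * r ^ 2) * hcs
  have dba : dsq b a x = 4 * r ^ 2 := by
    simp only [dsq, xar, xai, xbr, xbi]
    linear_combination (4 * r ^ 2) * hcs
  have hn3 : (n : ℝ) ^ 3 * r ^ 2 = n := by
    linear_combination (n * (r * n + 1)) * hrn
  have hOm : Om n x v = lam * (2 * r ^ 2 + 8 * n * p) := by
    unfold Om
    rw [sum2 _ (fun q hq => by rw [hq, zero_mul]),
      Fintype.sum_eq_add a b hab (fun m hm => by rw [hv m hm.1 hm.2]; simp)]
    simp only [xar, xai, xbr, xbi, var, vai, vbr, vbi, angab, angba, hp', ← hp]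
    linear_combination (2 * lam * r ^ 2) * hcs + (8 * lam * p) * hn3
  set S : ℝ := ∑ m, ((x m).re ^ 2 + (x m).im ^ 2) with hS
  have hS0 : 0 ≤ S := Finset.sum_nonneg (fun _ _ => by positivity)
  have hxm : ∀ m, (x m).re ^ 2 + (x m).im ^ 2 ≤ 1 := by
    intro m
    have h1 := Complex.sq_norm (x m)
    rw [Complex.normSq_apply] at h1
    have h2 : ‖x m‖ ^ 2 ≤ 1 := pow_le_one₀ (norm_nonneg _) (hx m).le
    linarith
  have hSn : S ≤ n := by
    calc S ≤ ∑ _m : Fin n, (1 : ℝ) := Finset.sum_le_sum (fun m _ => hxm m)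
      _ = n := by simp
  have hWt : Wt n x = S + 8 * n * p := by
    unfold Wt
    rw [sum2 _ (fun q hq => by rw [hq, zero_mul])]
    simp only [dab, dba, hp', ← hp, ← hS]
    linear_combination (8 * p) * hn3
  have hr2 : (4 * r ^ 2) ≠ 0 := by positivity
  have hLab : Lf n a b x v = p * lam * (2 * r ^ 2 - S) := by
    simp only [Lf, hOm, hWt, dab, angab, ← hp]
    field_simp
    ring
  have hLba : Lf n b a x v = p * lam * (2 * r ^ 2 - S) := by
    simp only [Lf, hOm, hWt, dba, angba, hp']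
    field_simp
    ring
  have hOpos : 0 < Om n x v := by rw [hOm]; positivity
  refine ⟨?_, hOpos⟩
  have hnp : (n : ℝ) * p ≤ n := mul_le_of_le_one_right hn0.le hp1
  have hrr : r ^ 2 ≤ (1 / 2) ^ 2 := pow_le_pow_left₀ hr0.le hr1 2
  have hOle : Om n x v ≤ 9 * n * lam := by
    rw [hOm, mul_comm (9 * (n : ℝ)) lam]
    exact mul_le_mul_of_nonneg_left (by linarith) hlam.le
  have hW0 : 0 ≤ Wt n x := by rw [hWt]; positivity
  have hWle : Wt n x ≤ 9 * n := by rw [hWt]; linarith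
  have hc1 : |c| ≤ 1 := (sq_le_one_iff_abs_le_one c).1 (by linarith [sq_nonneg s])
  have hs1 : |s| ≤ 1 := (sq_le_one_iff_abs_le_one s).1 (by linarith [sq_nonneg c])
  have hlr : ∀ t : ℝ, |t| ≤ 1 → |lam * (r * t)| ≤ lam := by
    intro t ht
    rw [abs_mul, abs_mul, abs_of_pos hlam, abs_of_pos hr0]
    exact mul_le_of_le_one_right hlam.le (mul_le_one₀ (by linarith) (abs_nonneg t) ht)
  have hvre : ∀ m, |(v m).re| ≤ lam := by
    intro m
    by_cases h1 : m = a
    · rw [h1, var]; exact hlr s hs1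
    · by_cases h2 : m = b
      · rw [h2, vbr, abs_neg]; exact hlr s hs1
      · rw [hv m h1 h2]; simpa using hlam.le
  have hvim : ∀ m, |(v m).im| ≤ lam := by
    intro m
    by_cases h1 : m = a
    · rw [h1, vai, abs_neg]; exact hlr c hc1
    · by_cases h2 : m = b
      · rw [h2, vbi]; exact hlr c hc1
      · rw [hv m h1 h2]; simpa using hlam.le
  have hbd : ∀ y z : ℝ, |y| ≤ lam → |z| ≤ 1 →
      (Wt n x * y + z * Om n x v) * (Wt n x * y + z * Om n x v) ≤ (18 * n * lam) ^ 2 := by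
    intro y z hy hz
    have h1 : |Wt n x * y + z * Om n x v| ≤ 18 * n * lam := by
      refine (abs_add_le _ _).trans ?_
      rw [abs_mul, abs_mul, abs_of_nonneg hW0, abs_of_pos hOpos]
      have e1 : Wt n x * |y| ≤ 9 * n * lam := mul_le_mul hWle hy (abs_nonneg _) (by positivity)
      have e2 : |z| * Om n x v ≤ 1 * (9 * n * lam) := mul_le_mul hz hOle hOpos.le zero_le_one
      linarith
    rw [← sq, ← sq_abs]
    exact pow_le_pow_left₀ (abs_nonneg _) h1 2
  have hM : ∑ m, (Mre n m x v * Mre n m x v + Mim n m x v * Mim n m x v)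
      ≤ n * (2 * (18 * n * lam) ^ 2) := by
    calc _ ≤ ∑ _m : Fin n, (2 * (18 * n * lam) ^ 2) := by
          refine Finset.sum_le_sum (fun m _ => ?_)
          have e1 := hbd (v m).re (x m).im (hvre m)
            (((Complex.abs_im_le_norm _).trans_lt (hx m)).le)
          have e2 := hbd (v m).im (-(x m).re) (hvim m)
            (by rw [abs_neg]; exact ((Complex.abs_re_le_norm _).trans_lt (hx m)).le)
          simp only [Mre, Mim]
          linarith
      _ = _ := by simp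
  have hM' : 1 / (200 * (n : ℝ) ^ 7) *
      ∑ m, (Mre n m x v * Mre n m x v + Mim n m x v * Mim n m x v)
        ≤ 81 / 25 * (lam ^ 2 * r ^ 4) := by
    refine (mul_le_mul_of_nonneg_left hM (by positivity)).trans (le_of_eq ?_)
    rw [hr]; field_simp; ring
  unfold Gf
  rw [sum2 (fun q => Lf n q.1 q.2 x v * Lf n q.1 q.2 x v)
    (fun q hq => by simp only [Lf, hq, zero_mul])]
  simp only [hLab, hLba]
  rw [hOm] at *
  have hsq : (2 * r ^ 2 - S) ^ 2 ≤ (n : ℝ) ^ 2 := by
    apply sq_le_sq'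
    · linarith [sq_nonneg r]
    · linarith
  have hl2 : 0 < lam ^ 2 := by positivity
  have e1 : p * lam * (2 * r ^ 2 - S) * (p * lam * (2 * r ^ 2 - S)) ≤ lam ^ 2 * (p * n) ^ 2 := by
    have : p * lam * (2 * r ^ 2 - S) * (p * lam * (2 * r ^ 2 - S))
        = (lam ^ 2 * p ^ 2) * (2 * r ^ 2 - S) ^ 2 := by ring
    rw [this, mul_pow, ← mul_assoc]
    exact mul_le_mul_of_nonneg_left hsq (by positivity)
  have e2 : lam ^ 2 * (4 * r ^ 4 + 64 * (p * n) ^ 2) ≤
      lam * (2 * r ^ 2 + 8 * n * p) * (lam * (2 * r ^ 2 + 8 * n * p)) := by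
    have : lam * (2 * r ^ 2 + 8 * n * p) * (lam * (2 * r ^ 2 + 8 * n * p))
        = lam ^ 2 * (4 * r ^ 4 + 64 * (p * n) ^ 2) + lam ^ 2 * (32 * r ^ 2 * n * p) := by ring
    rw [this]
    have : 0 ≤ lam ^ 2 * (32 * r ^ 2 * n * p) := by positivity
    linarith
  have e3 : 0 < lam ^ 2 * r ^ 4 := by positivity
  have e4 : 0 ≤ lam ^ 2 * (p * n) ^ 2 := by positivity
  linarith

/-- The velocity of the half turn, up to the positive factor `lam`. -/
noncomputable def halfVel (n : ℕ) (ρ : Equiv.Perm (Fin n)) (i : ℕ) (s lam : ℝ) : Fin n → ℂ :=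
  fun m =>
    if ((ρ m : ℕ)) = i then
      - (((1 / (n : ℝ) : ℝ) : ℂ) *
        (Complex.exp ((Real.pi : ℂ) * (s : ℂ) * Complex.I) * ((lam : ℂ) * Complex.I)))
    else if ((ρ m : ℕ)) = i + 1 then
      ((1 / (n : ℝ) : ℝ) : ℂ) *
        (Complex.exp ((Real.pi : ℂ) * (s : ℂ) * Complex.I) * ((lam : ℂ) * Complex.I))
    else 0

theorem halfTurn_timelike (hn : 2 ≤ n) (ρ : Equiv.Perm (Fin n)) (i : ℕ) (hi : i + 1 < n)
    (s lam : ℝ) (hlam : 0 < lam) :
    Gf n (halfTurn n ρ i s) (halfVel n ρ i s lam) (halfVel n ρ i s lam) < 0 ∧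
      0 < Om n (halfTurn n ρ i s) (halfVel n ρ i s lam) := by
  let a : Fin n := ρ.symm ⟨i, by omega⟩
  let b : Fin n := ρ.symm ⟨i + 1, hi⟩
  have ha : (ρ a : ℕ) = i := by simp [a]
  have hb : (ρ b : ℕ) = i + 1 := by simp [b]
  have ha' : ∀ m, (ρ m : ℕ) = i → m = a := fun m h => ρ.injective (Fin.ext (h.trans ha.symm))
  have hb' : ∀ m, (ρ m : ℕ) = i + 1 → m = b := fun m h => ρ.injective (Fin.ext (h.trans hb.symm))
  have hab : a ≠ b := by intro h; rw [h] at ha; omega
  refine timelike_aux hn _ _ (halfTurn_norm_lt n ρ i hi s) a b hab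
    ((2 * (i : ℝ) + 2) / n - 1) (Real.cos (Real.pi * s)) (Real.sin (Real.pi * s)) lam hlam
    (Real.sin_sq_add_cos_sq _) ?_ ?_ ?_ ?_ ?_ ?_ ?_ ?_ ?_ ?_
  · rw [halfTurn_re, if_pos ha]
  · rw [halfTurn_im, if_pos ha]
  · rw [halfTurn_re, if_neg (by omega), if_pos hb]
  · rw [halfTurn_im, if_neg (by omega), if_pos hb]
  · simp only [halfVel, if_pos ha, Complex.neg_re, Complex.re_ofReal_mul]
    rw [Complex.mul_re, exp_re, exp_im]; simp; ring
  · simp only [halfVel, if_pos ha, Complex.neg_im, Complex.im_ofReal_mul]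
    rw [Complex.mul_im, exp_re, exp_im]; simp; ring
  · simp only [halfVel, if_neg (show (ρ b : ℕ) ≠ i by omega), if_pos hb, Complex.re_ofReal_mul]
    rw [Complex.mul_re, exp_re, exp_im]; simp; ring
  · simp only [halfVel, if_neg (show (ρ b : ℕ) ≠ i by omega), if_pos hb, Complex.im_ofReal_mul]
    rw [Complex.mul_im, exp_re, exp_im]; simp; ring
  · intro m h1 h2
    simp only [halfVel]
    rw [if_neg (fun h => h1 (ha' m h)), if_neg (fun h => h2 (hb' m h))]
  · intro k l h1 h2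
    rcases lt_trichotomy (ρ k) (ρ l) with h | h | h
    · refine cut_far k l _ (halfTurn_gap n ρ i s k l h ?_)
      rintro ⟨e1, e2⟩
      exact h1 (by rw [ha' k e1, hb' l e2])
    · simp [cut, ρ.injective h]
    · rw [cut_comm]
      refine cut_far l k _ (halfTurn_gap n ρ i s l k h ?_)
      rintro ⟨e1, e2⟩
      exact h2 (by rw [ha' l e1, hb' k e2])

theorem hasDerivAt_halfTurn (n : ℕ) (ρ : Equiv.Perm (Fin n)) (i : ℕ) (k j t : ℝ) :
    HasDerivAt (fun u : ℝ => halfTurn n ρ i (k * u - j))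
      (halfVel n ρ i (k * t - j) (Real.pi * k)) t := by
  rw [hasDerivAt_pi]
  intro m
  have h1 : HasDerivAt (fun u : ℝ => ((k * u - j : ℝ) : ℂ)) ((k : ℝ) : ℂ) t := by
    have : HasDerivAt (fun u : ℝ => k * u - j) k t := by
      simpa using ((hasDerivAt_id t).const_mul k).sub_const j
    exact this.ofReal_comp
  have h2 : HasDerivAt
      (fun u : ℝ => Complex.exp ((Real.pi : ℂ) * ((k * u - j : ℝ) : ℂ) * Complex.I))
      (Complex.exp ((Real.pi : ℂ) * ((k * t - j : ℝ) : ℂ) * Complex.I) *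
        (((Real.pi * k : ℝ) : ℂ) * Complex.I)) t := by
    have := ((h1.const_mul (Real.pi : ℂ)).mul_const Complex.I).cexp
    simpa using this
  unfold halfTurn halfVel
  split_ifs
  · exact (h2.const_mul _).const_sub _
  · exact (h2.const_mul _).const_add _
  · exact hasDerivAt_const _ _

theorem contDiff_halfTurn (n : ℕ) (ρ : Equiv.Perm (Fin n)) (i : ℕ) (k j : ℝ) :
    ContDiff ℝ ((⊤ : ℕ∞) : WithTop ℕ∞) (fun u : ℝ => halfTurn n ρ i (k * u - j)) := by
  rw [contDiff_pi]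
  intro m
  have h1 : ContDiff ℝ ((⊤ : ℕ∞) : WithTop ℕ∞) (fun u : ℝ => ((k * u - j : ℝ) : ℂ)) :=
    Complex.ofRealCLM.contDiff.comp ((contDiff_const.mul contDiff_id).sub contDiff_const)
  have h2 : ContDiff ℝ ((⊤ : ℕ∞) : WithTop ℕ∞)
      (fun u : ℝ => Complex.exp ((Real.pi : ℂ) * ((k * u - j : ℝ) : ℂ) * Complex.I)) :=
    Complex.contDiff_exp.comp ((contDiff_const.mul h1).mul contDiff_const)
  unfold halfTurn
  split_ifs
  · exact contDiff_const.sub (contDiff_const.mul h2)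
  · exact contDiff_const.add (contDiff_const.mul h2)
  · exact contDiff_const

end Pool.Agent.Lib.MP_813774_gt
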