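import Pool.Agent.Lib.MP_813774_gt.Topo3
import Pool.Agent.Lib.MP_813774_gt.Metric2

/-!
The two implications: positive words are time-like, time-like loops are positive words.
-/

set_option autoImplicit false

namespace Pool.Agent.Lib.MP_813774_gt

open Set unitInterval Filter Topology

variable {n : ℕ}

theorem eventually_sign {u : ℝ → ℝ} {a b t₀ u' : ℝ} (h : HasDerivWithinAt u u' (Icc a b) t₀)
    (h0 : u t₀ = 0) (hu : 0 < u') :
    ∀ᶠ t in 𝓝 t₀, t ∈ Icc a b → (t₀ < t → 0 < u t) ∧ (t < t₀ → u t < 0) := by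
  have h1 := (hasDerivWithinAt_iff_tendsto_slope.1 h).eventually (lt_mem_nhds hu)
  rw [eventually_nhdsWithin_iff] at h1
  filter_upwards [h1] with t ht hmem
  constructor
  · intro hlt
    have := ht ⟨hmem, hlt.ne'⟩
    rw [slope_def_field, h0, sub_zero] at this
    exact (div_pos_iff_of_pos_right (sub_pos.2 hlt)).1 this
  · intro hlt
    have := ht ⟨hmem, hlt.ne⟩
    rw [slope_def_field, h0, sub_zero] at this
    by_contra hcon
    have := div_nonpos_of_nonneg_of_nonpos (not_lt.1 hcon) (sub_nonpos.2 hlt.le)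
    linarith

theorem exists_piece_right (τ : ℕ → ℝ) (t : ℝ) :
    ∀ k : ℕ, τ 0 ≤ t → t < τ k → ∃ j, j < k ∧ τ j ≤ t ∧ t < τ (j + 1) := by
  intro k h0
  induction k with
  | zero => intro h; linarith
  | succ k ih =>
    intro h
    by_cases hk : t < τ k
    · obtain ⟨j, hj, e⟩ := ih hk
      exact ⟨j, by omega, e⟩
    · exact ⟨k, by omega, not_lt.1 hk, h⟩

theorem exists_piece_left (τ : ℕ → ℝ) (t : ℝ) :
    ∀ k : ℕ, τ 0 < t → t ≤ τ k → ∃ j, j < k ∧ τ j < t ∧ t ≤ τ (j + 1) := by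
  intro k h0
  induction k with
  | zero => intro h; linarith
  | succ k ih =>
    intro h
    by_cases hk : t ≤ τ k
    · obtain ⟨j, hj, e⟩ := ih hk
      exact ⟨j, by omega, e⟩
    · exact ⟨k, by omega, not_le.1 hk, h⟩

theorem isPos_of_timelike (hn : 2 ≤ n) {P q : Conf n} (hP : P.1 = basePt n 1)
    (π₀ : Equiv.Perm (Fin n)) (hq : q.1 = basePt n π₀) (d : Path P q) (k : ℕ) (τ : ℕ → ℝ)
    (h0 : τ 0 = 0) (h1 : τ k = 1)
    (h : ∀ j : ℕ, j < k → τ j < τ (j + 1) ∧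
      ContDiffOn ℝ ((⊤ : ℕ∞) : WithTop ℕ∞) (fun t : ℝ => (d.extend t).1)
        (Set.Icc (τ j) (τ (j + 1))) ∧
      ∀ t ∈ Set.Icc (τ j) (τ (j + 1)),
        gL n ((d.extend t).1)
          (derivWithin (fun t : ℝ => (d.extend t).1) (Set.Icc (τ j) (τ (j + 1))) t)
          (derivWithin (fun t : ℝ => (d.extend t).1) (Set.Icc (τ j) (τ (j + 1))) t) < 0 ∧
        gL n ((d.extend t).1)
          (derivWithin (fun t : ℝ => (d.extend t).1) (Set.Icc (τ j) (τ (j + 1))) t)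
          (Rot ((d.extend t).1)) < 0) : IsPos P q d := by
  refine isPos_of_crossing hP π₀ hq d (fun t₀ a b hre him => ?_)
  have hext : ∀ t : I, d.extend (t : ℝ) = d t := fun t => d.extend_extends' t
  have piece : ∀ j, j < k → (t₀ : ℝ) ∈ Icc (τ j) (τ (j + 1)) →
      ∀ᶠ t : I in 𝓝 t₀, (t : ℝ) ∈ Icc (τ j) (τ (j + 1)) →
        (t₀ < t → ((d t).1 b).re < ((d t).1 a).re) ∧
        (t < t₀ → ((d t).1 a).re < ((d t).1 b).re) := by
    intro j hj hmem
    obtain ⟨_, hs, ht⟩ := h j hj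
    obtain ⟨e1, e2⟩ := ht t₀ hmem
    set v := derivWithin (fun t : ℝ => (d.extend t).1) (Set.Icc (τ j) (τ (j + 1))) t₀ with hv
    have hd : HasDerivWithinAt (fun t : ℝ => (d.extend t).1) v (Set.Icc (τ j) (τ (j + 1))) t₀ :=
      ((hs.differentiableOn (by simp)) t₀ hmem).hasDerivWithinAt
    rw [hext] at e1 e2
    have hlt := ang_pos_of_timelike hn _ (d t₀).2.1 v e1 e2 a b hre him
    have hda := Complex.reCLM.hasFDerivAt.comp_hasDerivWithinAt (t₀ : ℝ)
      (hasDerivWithinAt_pi.1 hd a)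
    have hdb := Complex.reCLM.hasFDerivAt.comp_hasDerivWithinAt (t₀ : ℝ)
      (hasDerivWithinAt_pi.1 hd b)
    have key := eventually_sign (hda.sub hdb)
      (by simp only [Pi.sub_apply, Function.comp, hext, Complex.reCLM_apply]; linarith)
      (by simpa using hlt)
    filter_upwards [continuous_subtype_val.continuousAt.eventually key] with t ht' hm
    have := ht' hm
    simp only [Pi.sub_apply, Function.comp, hext, Complex.reCLM_apply] at this
    exact ⟨fun e => by linarith [this.1 e], fun e => by linarith [this.2 e]⟩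
  have right : ∀ᶠ t : I in 𝓝 t₀, t₀ < t → ((d t).1 b).re < ((d t).1 a).re := by
    by_cases e : (t₀ : ℝ) < 1
    · obtain ⟨j, hj, e1, e2⟩ := exists_piece_right τ t₀ k (by rw [h0]; exact t₀.2.1)
        (by rw [h1]; exact e)
      have hnb : ∀ᶠ t : I in 𝓝 t₀, (t : ℝ) < τ (j + 1) :=
        continuous_subtype_val.continuousAt.eventually (gt_mem_nhds e2)
      filter_upwards [piece j hj ⟨e1, e2.le⟩, hnb] with t ht1 ht2 hlt
      exact (ht1 ⟨e1.trans (le_of_lt hlt), ht2.le⟩).1 hlt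
    · refine Eventually.of_forall (fun t hlt => ?_)
      have : (t₀ : ℝ) < t := hlt
      linarith [t.2.2]
  have left : ∀ᶠ t : I in 𝓝 t₀, t < t₀ → ((d t).1 a).re < ((d t).1 b).re := by
    by_cases e : 0 < (t₀ : ℝ)
    · obtain ⟨j, hj, e1, e2⟩ := exists_piece_left τ t₀ k (by rw [h0]; exact e)
        (by rw [h1]; exact t₀.2.2)
      have hnb : ∀ᶠ t : I in 𝓝 t₀, τ j < (t : ℝ) :=
        continuous_subtype_val.continuousAt.eventually (lt_mem_nhds e1)
      filter_upwards [piece j hj ⟨e1.le, e2⟩, hnb] with t ht1 ht2 hlt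
      exact (ht1 ⟨ht2.le, (le_of_lt hlt : (t : ℝ) ≤ t₀).trans e2⟩).2 hlt
    · refine Eventually.of_forall (fun t hlt => ?_)
      have : (t : ℝ) < t₀ := hlt
      linarith [t.2.1]
  exact right.and left

theorem timelike_of_word (hn : 2 ≤ n) {P q : Conf n} (Γ : Path P q) (k : ℕ) (hk : 1 ≤ k)
    (h : ∀ j : ℕ, j < k → ∃ i : ℕ, i + 1 < n ∧ ∃ ρ : Equiv.Perm (Fin n),
      ∀ (t : I) (s : ℝ), 0 ≤ s → s ≤ 1 → (t : ℝ) = ((j : ℝ) + s) / (k : ℝ) →
        ∀ m : Fin n, (Γ t).1 m = halfTurn n ρ i s m) :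
    ∃ (k : ℕ) (τ : ℕ → ℝ), τ 0 = 0 ∧ τ k = 1 ∧ ∀ j : ℕ, j < k → τ j < τ (j + 1) ∧
      ContDiffOn ℝ ((⊤ : ℕ∞) : WithTop ℕ∞) (fun t : ℝ => (Γ.extend t).1)
        (Set.Icc (τ j) (τ (j + 1))) ∧
      ∀ t ∈ Set.Icc (τ j) (τ (j + 1)),
        gL n ((Γ.extend t).1)
          (derivWithin (fun t : ℝ => (Γ.extend t).1) (Set.Icc (τ j) (τ (j + 1))) t)
          (derivWithin (fun t : ℝ => (Γ.extend t).1) (Set.Icc (τ j) (τ (j + 1))) t) < 0 ∧
        gL n ((Γ.extend t).1)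
          (derivWithin (fun t : ℝ => (Γ.extend t).1) (Set.Icc (τ j) (τ (j + 1))) t)
          (Rot ((Γ.extend t).1)) < 0 := by
  have hk0 : (0 : ℝ) < k := by exact_mod_cast hk
  refine ⟨k, fun j => (j : ℝ) / k, by simp, div_self hk0.ne', fun j hj => ?_⟩
  have hlt : (j : ℝ) / k < ((j + 1 : ℕ) : ℝ) / k := by
    apply div_lt_div_of_pos_right _ hk0; push_cast; linarith
  obtain ⟨i, hi, ρ, hρ⟩ := h j hj
  have hjk : ((j + 1 : ℕ) : ℝ) ≤ k := by exact_mod_cast hj
  have heq : EqOn (fun t : ℝ => (Γ.extend t).1) (fun u : ℝ => halfTurn n ρ i (k * u - j))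
      (Icc ((j : ℝ) / k) (((j + 1 : ℕ) : ℝ) / k)) := by
    intro t ht
    have e1 : (j : ℝ) ≤ k * t := by
      have := ht.1; rw [div_le_iff₀ hk0] at this; linarith
    have e2 : k * t ≤ (j : ℝ) + 1 := by
      have := ht.2; rw [le_div_iff₀ hk0] at this; push_cast at this; linarith
    have ht0 : 0 ≤ t := le_trans (by positivity) ht.1
    have ht1 : t ≤ 1 := ht.2.trans ((div_le_one hk0).2 hjk)
    funext m
    simp only
    rw [Path.extend_apply _ ⟨ht0, ht1⟩]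
    exact hρ ⟨t, ht0, ht1⟩ (k * t - j) (by linarith) (by linarith) (by field_simp; ring) m
  refine ⟨hlt, (contDiff_halfTurn n ρ i k j).contDiffOn.congr heq, fun t ht => ?_⟩
  have hder : derivWithin (fun t : ℝ => (Γ.extend t).1)
      (Icc ((j : ℝ) / k) (((j + 1 : ℕ) : ℝ) / k)) t = halfVel n ρ i (k * t - j) (Real.pi * k) := by
    rw [derivWithin_congr heq (heq ht)]
    exact (hasDerivAt_halfTurn n ρ i k j t).hasDerivWithinAt.derivWithin (uniqueDiffOn_Icc hlt t ht)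
  have hx : (Γ.extend t).1 = halfTurn n ρ i (k * t - j) := heq ht
  have hinj : Function.Injective (halfTurn n ρ i (k * t - j)) := hx ▸ (Γ.extend t).2.1
  obtain ⟨e1, e2⟩ := halfTurn_timelike hn ρ i hi (k * t - j) (Real.pi * k)
    (mul_pos Real.pi_pos hk0)
  simp only [hder, hx, gL_apply]
  refine ⟨e1, ?_⟩
  rw [Gf_symm, Gf_Rot _ hinj]
  exact neg_neg_of_pos (mul_pos (Wt_pos hn _ hinj) e2)

end Pool.Agent.Lib.MP_813774_gt
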