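import Pool.Agent.Lib.MP_813774_gt.Topo2

/-!
The Lorentz metric: definition, linearity, smoothness, symmetry and signature.
-/

set_option autoImplicit false

namespace Pool.Agent.Lib.MP_813774_gt

open Finset

variable {n : ℕ}

/-- Cut-off function of the pair `k, l`, equal to one on the wall of equal real parts. -/
noncomputable def cut (n : ℕ) (k l : Fin n) (x : Fin n → ℂ) : ℝ :=
  if k = l then 0
  else Real.smoothTransition (1 - ((n : ℝ) * ((x k).re - (x l).re) / 2) ^ 2)

/-- Relative angular momentum of the pair `k, l`. -/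
def ang (k l : Fin n) (x v : Fin n → ℂ) : ℝ :=
  ((x k).re - (x l).re) * ((v k).im - (v l).im) - ((x k).im - (x l).im) * ((v k).re - (v l).re)

/-- Squared distance of the pair `k, l`. -/
def dsq (k l : Fin n) (x : Fin n → ℂ) : ℝ :=
  ((x k).re - (x l).re) ^ 2 + ((x k).im - (x l).im) ^ 2

/-- The time one-form. -/
noncomputable def Om (n : ℕ) (x v : Fin n → ℂ) : ℝ :=
  ∑ m, ((x m).re * (v m).im - (x m).im * (v m).re)
    + (n : ℝ) ^ 3 * ∑ p : Fin n × Fin n, cut n p.1 p.2 x * ang p.1 p.2 x v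

/-- The value of the time one-form on the rotation field. -/
noncomputable def Wt (n : ℕ) (x : Fin n → ℂ) : ℝ :=
  ∑ m, ((x m).re ^ 2 + (x m).im ^ 2)
    + (n : ℝ) ^ 3 * ∑ p : Fin n × Fin n, cut n p.1 p.2 x * dsq p.1 p.2 x

/-- The wall one-forms. -/
noncomputable def Lf (n : ℕ) (k l : Fin n) (x v : Fin n → ℂ) : ℝ :=
  cut n k l x * (Om n x v - Wt n x / dsq k l x * ang k l x v)

/-- Real parts of the component transverse to the rotation field. -/
noncomputable def Mre (n : ℕ) (m : Fin n) (x v : Fin n → ℂ) : ℝ :=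
  Wt n x * (v m).re + (x m).im * Om n x v

/-- Imaginary parts of the component transverse to the rotation field. -/
noncomputable def Mim (n : ℕ) (m : Fin n) (x v : Fin n → ℂ) : ℝ :=
  Wt n x * (v m).im - (x m).re * Om n x v

/-- The metric as a function. -/
noncomputable def Gf (n : ℕ) (x v w : Fin n → ℂ) : ℝ :=
  - (Om n x v * Om n x w) + ∑ p : Fin n × Fin n, Lf n p.1 p.2 x v * Lf n p.1 p.2 x w
    + 1 / (200 * (n : ℝ) ^ 7) * ∑ m, (Mre n m x v * Mre n m x w + Mim n m x v * Mim n m x w)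

/-- The rotation field. -/
def Rot (x : Fin n → ℂ) : Fin n → ℂ := fun m => Complex.I * x m

theorem ang_add (k l : Fin n) (x v w : Fin n → ℂ) :
    ang k l x (v + w) = ang k l x v + ang k l x w := by
  simp only [ang, Pi.add_apply, Complex.add_re, Complex.add_im]; ring

theorem ang_smul (k l : Fin n) (x v : Fin n → ℂ) (c : ℝ) :
    ang k l x (c • v) = c * ang k l x v := by
  simp only [ang, Pi.smul_apply, Complex.smul_re, Complex.smul_im, smul_eq_mul]; ring

theorem Om_add (x v w : Fin n → ℂ) : Om n x (v + w) = Om n x v + Om n x w := by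
  simp only [Om, ang_add, Pi.add_apply, Complex.add_re, Complex.add_im, mul_add,
    Finset.sum_add_distrib, Finset.sum_sub_distrib]
  ring

theorem Om_smul (x v : Fin n → ℂ) (c : ℝ) : Om n x (c • v) = c * Om n x v := by
  simp only [Om, ang_smul, Pi.smul_apply, Complex.smul_re, Complex.smul_im, smul_eq_mul,
    mul_add, Finset.mul_sum]
  congr 1
  · exact Finset.sum_congr rfl (fun _ _ => by ring)
  · exact Finset.sum_congr rfl (fun _ _ => by ring)

theorem Gf_symm (x v w : Fin n → ℂ) : Gf n x v w = Gf n x w v := by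
  simp only [Gf, mul_comm]

theorem Gf_add (x v v' w : Fin n → ℂ) : Gf n x (v + v') w = Gf n x v w + Gf n x v' w := by
  have h1 : ∀ k l, Lf n k l x (v + v') = Lf n k l x v + Lf n k l x v' := by
    intro k l; simp only [Lf, Om_add, ang_add]; ring
  have h2 : ∀ m, Mre n m x (v + v') = Mre n m x v + Mre n m x v' := by
    intro m; simp only [Mre, Om_add, Pi.add_apply, Complex.add_re]; ring
  have h3 : ∀ m, Mim n m x (v + v') = Mim n m x v + Mim n m x v' := by
    intro m; simp only [Mim, Om_add, Pi.add_apply, Complex.add_im]; ring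
  simp only [Gf, h1, h2, h3, Om_add, add_mul, Finset.sum_add_distrib]
  ring

theorem Gf_smul (x v w : Fin n → ℂ) (c : ℝ) : Gf n x (c • v) w = c * Gf n x v w := by
  have h1 : ∀ k l, Lf n k l x (c • v) = c * Lf n k l x v := by
    intro k l; simp only [Lf, Om_smul, ang_smul]; ring
  have h2 : ∀ m, Mre n m x (c • v) = c * Mre n m x v := by
    intro m; simp only [Mre, Om_smul, Pi.smul_apply, Complex.smul_re, smul_eq_mul]; ring
  have h3 : ∀ m, Mim n m x (c • v) = c * Mim n m x v := by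
    intro m; simp only [Mim, Om_smul, Pi.smul_apply, Complex.smul_im, smul_eq_mul]; ring
  simp only [Gf, h1, h2, h3, Om_smul, mul_assoc, ← mul_add, ← Finset.mul_sum]
  ring

/-- The metric as a continuous bilinear form. -/
noncomputable def gL (n : ℕ) (x : Fin n → ℂ) : (Fin n → ℂ) →L[ℝ] (Fin n → ℂ) →L[ℝ] ℝ :=
  LinearMap.toContinuousLinearMap
    ((LinearMap.toContinuousLinearMap :
        ((Fin n → ℂ) →ₗ[ℝ] ℝ) ≃ₗ[ℝ] ((Fin n → ℂ) →L[ℝ] ℝ)).toLinearMap ∘ₗ
      LinearMap.mk₂ ℝ (Gf n x) (Gf_add x) (fun c v w => Gf_smul x v w c)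
        (fun v w w' => by rw [Gf_symm, Gf_add, Gf_symm x w, Gf_symm x w'])
        (fun c v w => by rw [Gf_symm, Gf_smul, Gf_symm x w]; rfl))

@[simp] theorem gL_apply (x v w : Fin n → ℂ) : gL n x v w = Gf n x v w := rfl

theorem cut_nonneg (k l : Fin n) (x : Fin n → ℂ) : 0 ≤ cut n k l x := by
  unfold cut; split_ifs
  · exact le_rfl
  · exact Real.smoothTransition.nonneg _

theorem cut_le_one (k l : Fin n) (x : Fin n → ℂ) : cut n k l x ≤ 1 := by
  unfold cut; split_ifs
  · exact zero_le_one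
  · exact Real.smoothTransition.le_one _

theorem cut_wall (k l : Fin n) (x : Fin n → ℂ) (hkl : k ≠ l) (h : (x k).re = (x l).re) :
    cut n k l x = 1 := by
  simp [cut, hkl, h]

theorem cut_comm (k l : Fin n) (x : Fin n → ℂ) : cut n k l x = cut n l k x := by
  unfold cut
  by_cases h : k = l
  · simp [h]
  · rw [if_neg h, if_neg (Ne.symm h)]; congr 1; ring

theorem cut_far (k l : Fin n) (x : Fin n → ℂ) (h : (x k).re + 2 / n ≤ (x l).re) :
    cut n k l x = 0 := by
  have hn : (0 : ℝ) < n := by exact_mod_cast k.pos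
  unfold cut; split_ifs
  · rfl
  · apply Real.smoothTransition.zero_of_nonpos
    have h1 : 2 ≤ (n : ℝ) * ((x l).re - (x k).re) := by
      have : 2 / (n : ℝ) ≤ (x l).re - (x k).re := by linarith
      rw [div_le_iff₀ hn] at this; linarith
    nlinarith

theorem dsq_nonneg (k l : Fin n) (x : Fin n → ℂ) : 0 ≤ dsq k l x := by
  unfold dsq; positivity

theorem dsq_pos (k l : Fin n) (x : Fin n → ℂ) (hx : Function.Injective x) (hkl : k ≠ l) :
    0 < dsq k l x := by
  refine lt_of_le_of_ne (dsq_nonneg k l x) (fun h => hkl (hx ?_))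
  unfold dsq at h
  have h1 : (x k).re - (x l).re = 0 := by nlinarith [sq_nonneg ((x k).re - (x l).re), sq_nonneg ((x k).im - (x l).im)]
  have h2 : (x k).im - (x l).im = 0 := by nlinarith [sq_nonneg ((x k).re - (x l).re), sq_nonneg ((x k).im - (x l).im)]
  exact Complex.ext (by linarith) (by linarith)

theorem Wt_pos (hn : 2 ≤ n) (x : Fin n → ℂ) (hx : Function.Injective x) : 0 < Wt n x := by
  have h1 : 0 < ∑ m, ((x m).re ^ 2 + (x m).im ^ 2) := by
    have hne : (⟨0, by omega⟩ : Fin n) ≠ ⟨1, by omega⟩ := by simp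
    obtain ⟨m, hm⟩ : ∃ m, x m ≠ 0 := by
      by_contra hcon
      push Not at hcon
      exact hne (hx (by rw [hcon, hcon]))
    refine Finset.sum_pos' (fun _ _ => by positivity) ⟨m, Finset.mem_univ _, ?_⟩
    have := Complex.normSq_pos.2 hm
    rw [Complex.normSq_apply] at this
    nlinarith
  have h2 : 0 ≤ ∑ p : Fin n × Fin n, cut n p.1 p.2 x * dsq p.1 p.2 x :=
    Finset.sum_nonneg (fun p _ => mul_nonneg (cut_nonneg _ _ _) (dsq_nonneg _ _ _))
  unfold Wt; positivity

theorem ang_Rot (k l : Fin n) (x : Fin n → ℂ) : ang k l x (Rot x) = dsq k l x := by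
  simp [ang, dsq, Rot]; ring

theorem Om_Rot (x : Fin n → ℂ) : Om n x (Rot x) = Wt n x := by
  simp only [Om, Wt, ang_Rot]
  congr 1
  exact Finset.sum_congr rfl (fun m _ => by simp [Rot]; ring)

theorem Gf_Rot (x : Fin n → ℂ) (hx : Function.Injective x) (w : Fin n → ℂ) :
    Gf n x (Rot x) w = - (Wt n x * Om n x w) := by
  have h1 : ∀ k l, Lf n k l x (Rot x) = 0 := by
    intro k l
    by_cases h : k = l
    · simp [Lf, cut, h]
    · have := (dsq_pos k l x hx h).ne'
      simp only [Lf, Om_Rot, ang_Rot]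
      rw [div_mul_cancel₀ _ this]; ring
  have h2 : ∀ m, Mre n m x (Rot x) = 0 := by
    intro m; simp only [Mre, Om_Rot]; simp [Rot]; ring
  have h3 : ∀ m, Mim n m x (Rot x) = 0 := by
    intro m; simp only [Mim, Om_Rot]; simp [Rot]; ring
  simp [Gf, h1, h2, h3, Om_Rot]

theorem Gf_pos (hn : 2 ≤ n) (x : Fin n → ℂ) (hx : Function.Injective x) (v : Fin n → ℂ)
    (hv : v ≠ 0) (h : Gf n x (Rot x) v = 0) : 0 < Gf n x v v := by
  have hW := Wt_pos hn x hx
  rw [Gf_Rot x hx] at h
  have hO : Om n x v = 0 := by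
    rcases mul_eq_zero.1 (neg_eq_zero.1 h) with h | h
    · exact absurd h hW.ne'
    · exact h
  have hn' : (0 : ℝ) < n := by exact_mod_cast (by omega : 0 < n)
  have h1 : 0 ≤ ∑ p : Fin n × Fin n, Lf n p.1 p.2 x v * Lf n p.1 p.2 x v :=
    Finset.sum_nonneg (fun p _ => mul_self_nonneg _)
  have h2 : 0 < ∑ m, (Mre n m x v * Mre n m x v + Mim n m x v * Mim n m x v) := by
    obtain ⟨m, hm⟩ : ∃ m, v m ≠ 0 := by
      by_contra hcon
      push Not at hcon
      exact hv (funext hcon)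
    refine Finset.sum_pos' (fun _ _ => add_nonneg (mul_self_nonneg _) (mul_self_nonneg _))
      ⟨m, Finset.mem_univ _, ?_⟩
    have := Complex.normSq_pos.2 hm
    rw [Complex.normSq_apply] at this
    simp only [Mre, Mim, hO]
    have := mul_pos (mul_pos hW hW) this
    nlinarith
  unfold Gf
  rw [hO]
  have : 0 < 1 / (200 * (n : ℝ) ^ 7) *
    ∑ m, (Mre n m x v * Mre n m x v + Mim n m x v * Mim n m x v) := by positivity
  linarith

/-- A future time-like vector crosses each wall positively. -/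
theorem ang_pos_of_timelike (hn : 2 ≤ n) (x : Fin n → ℂ) (hx : Function.Injective x)
    (v : Fin n → ℂ) (h1 : Gf n x v v < 0) (h2 : Gf n x v (Rot x) < 0) (k l : Fin n)
    (hre : (x k).re = (x l).re) (him : (x k).im < (x l).im) : (v l).re < (v k).re := by
  have hkl : k ≠ l := by rintro rfl; exact lt_irrefl _ him
  have hW := Wt_pos hn x hx
  have hD := dsq_pos k l x hx hkl
  rw [Gf_symm, Gf_Rot x hx] at h2
  have hO : 0 < Om n x v := by
    by_contra hcon
    have := mul_nonneg hW.le (neg_nonneg.2 (not_lt.1 hcon))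
    linarith
  have hn' : (0 : ℝ) < n := by exact_mod_cast (by omega : 0 < n)
  have e1 : Lf n k l x v * Lf n k l x v ≤
      ∑ p : Fin n × Fin n, Lf n p.1 p.2 x v * Lf n p.1 p.2 x v :=
    Finset.single_le_sum (f := fun p : Fin n × Fin n => Lf n p.1 p.2 x v * Lf n p.1 p.2 x v)
      (fun p _ => mul_self_nonneg _) (Finset.mem_univ (k, l))
  have e2 : 0 ≤ 1 / (200 * (n : ℝ) ^ 7) *
      ∑ m, (Mre n m x v * Mre n m x v + Mim n m x v * Mim n m x v) :=
    mul_nonneg (by positivity)
      (Finset.sum_nonneg (fun _ _ => add_nonneg (mul_self_nonneg _) (mul_self_nonneg _)))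
  unfold Gf at h1
  have e3 : Lf n k l x v * Lf n k l x v < Om n x v * Om n x v := by linarith
  have e4 : Lf n k l x v < Om n x v := by nlinarith
  simp only [Lf, cut_wall k l x hkl hre, one_mul] at e4
  have e5 : 0 < Wt n x / dsq k l x * ang k l x v := by linarith
  have e6 : 0 < ang k l x v := (mul_pos_iff_of_pos_left (div_pos hW hD)).1 e5
  simp only [ang, hre, sub_self, zero_mul, zero_sub] at e6
  nlinarith

section perm

variable (ρ : Equiv.Perm (Fin n)) (x v w : Fin n → ℂ)

theorem cut_perm (k l : Fin n) : cut n k l (fun m => x (ρ m)) = cut n (ρ k) (ρ l) x := by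
  simp [cut]

theorem sum_pair_perm (f : Fin n → Fin n → ℝ) :
    ∑ p : Fin n × Fin n, f (ρ p.1) (ρ p.2) = ∑ p : Fin n × Fin n, f p.1 p.2 :=
  Equiv.sum_comp (ρ.prodCongr ρ) (fun p => f p.1 p.2)

theorem Om_perm : Om n (fun m => x (ρ m)) (fun m => v (ρ m)) = Om n x v := by
  unfold Om
  rw [← sum_pair_perm ρ (fun k l => cut n k l x * ang k l x v),
    ← Equiv.sum_comp ρ (fun m => (x m).re * (v m).im - (x m).im * (v m).re)]
  simp only [cut_perm]
  rfl

theorem Wt_perm : Wt n (fun m => x (ρ m)) = Wt n x := by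
  unfold Wt
  rw [← sum_pair_perm ρ (fun k l => cut n k l x * dsq k l x),
    ← Equiv.sum_comp ρ (fun m => (x m).re ^ 2 + (x m).im ^ 2)]
  simp only [cut_perm]
  rfl

theorem Gf_perm : Gf n (fun m => x (ρ m)) (fun m => v (ρ m)) (fun m => w (ρ m)) = Gf n x v w := by
  unfold Gf
  rw [← sum_pair_perm ρ (fun k l => Lf n k l x v * Lf n k l x w),
    ← Equiv.sum_comp ρ (fun m => Mre n m x v * Mre n m x w + Mim n m x v * Mim n m x w)]
  simp only [Lf, Mre, Mim, cut_perm, Om_perm, Wt_perm]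
  rfl

end perm

section smooth

theorem contDiff_re (m : Fin n) :
    ContDiff ℝ ((⊤ : ℕ∞) : WithTop ℕ∞) (fun x : Fin n → ℂ => (x m).re) :=
  Complex.reCLM.contDiff.comp (contDiff_apply ℝ ℂ m)

theorem contDiff_im (m : Fin n) :
    ContDiff ℝ ((⊤ : ℕ∞) : WithTop ℕ∞) (fun x : Fin n → ℂ => (x m).im) :=
  Complex.imCLM.contDiff.comp (contDiff_apply ℝ ℂ m)

theorem contDiff_cut (k l : Fin n) : ContDiff ℝ ((⊤ : ℕ∞) : WithTop ℕ∞) (cut n k l) := by
  unfold cut
  split_ifs
  · exact contDiff_const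
  · refine Real.smoothTransition.contDiff.comp ?_
    exact contDiff_const.sub
      (((contDiff_const.mul ((contDiff_re k).sub (contDiff_re l))).div_const _).pow 2)

theorem contDiff_ang (k l : Fin n) (v : Fin n → ℂ) :
    ContDiff ℝ ((⊤ : ℕ∞) : WithTop ℕ∞) (fun x => ang k l x v) :=
  (((contDiff_re k).sub (contDiff_re l)).mul contDiff_const).sub
    (((contDiff_im k).sub (contDiff_im l)).mul contDiff_const)

theorem contDiff_dsq (k l : Fin n) : ContDiff ℝ ((⊤ : ℕ∞) : WithTop ℕ∞) (dsq k l) :=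
  (((contDiff_re k).sub (contDiff_re l)).pow 2).add (((contDiff_im k).sub (contDiff_im l)).pow 2)

theorem contDiff_Om (v : Fin n → ℂ) :
    ContDiff ℝ ((⊤ : ℕ∞) : WithTop ℕ∞) (fun x => Om n x v) :=
  (ContDiff.sum (fun m _ => ((contDiff_re m).mul contDiff_const).sub
    ((contDiff_im m).mul contDiff_const))).add
    (contDiff_const.mul (ContDiff.sum (fun p _ => (contDiff_cut p.1 p.2).mul
      (contDiff_ang p.1 p.2 v))))

theorem contDiff_Wt : ContDiff ℝ ((⊤ : ℕ∞) : WithTop ℕ∞) (Wt n) :=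
  (ContDiff.sum (fun m _ => ((contDiff_re m).pow 2).add ((contDiff_im m).pow 2))).add
    (contDiff_const.mul (ContDiff.sum (fun p _ => (contDiff_cut p.1 p.2).mul
      (contDiff_dsq p.1 p.2))))

theorem contDiffOn_Lf (k l : Fin n) (v : Fin n → ℂ) :
    ContDiffOn ℝ ((⊤ : ℕ∞) : WithTop ℕ∞) (fun x => Lf n k l x v)
      {f : Fin n → ℂ | Function.Injective f ∧ ∀ m, ‖f m‖ < 1} := by
  by_cases h : k = l
  · simp only [Lf, cut, h, if_true, zero_mul]
    exact contDiffOn_const
  · refine (contDiff_cut k l).contDiffOn.mul ((contDiff_Om v).contDiffOn.sub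
      (ContDiffOn.mul ?_ (contDiff_ang k l v).contDiffOn))
    exact contDiff_Wt.contDiffOn.div (contDiff_dsq k l).contDiffOn
      (fun x hx => (dsq_pos k l x hx.1 h).ne')

theorem contDiff_Mre (m : Fin n) (v : Fin n → ℂ) :
    ContDiff ℝ ((⊤ : ℕ∞) : WithTop ℕ∞) (fun x => Mre n m x v) :=
  (contDiff_Wt.mul contDiff_const).add ((contDiff_im m).mul (contDiff_Om v))

theorem contDiff_Mim (m : Fin n) (v : Fin n → ℂ) :
    ContDiff ℝ ((⊤ : ℕ∞) : WithTop ℕ∞) (fun x => Mim n m x v) :=
  (contDiff_Wt.mul contDiff_const).sub ((contDiff_re m).mul (contDiff_Om v))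

theorem contDiffOn_gL : ContDiffOn ℝ ((⊤ : ℕ∞) : WithTop ℕ∞) (gL n)
    {f : Fin n → ℂ | Function.Injective f ∧ ∀ m, ‖f m‖ < 1} := by
  rw [contDiffOn_clm_apply]
  intro v
  rw [contDiffOn_clm_apply]
  intro w
  simp only [gL_apply, Gf]
  refine ContDiffOn.add (ContDiffOn.add ((contDiff_Om v).mul (contDiff_Om w)).neg.contDiffOn ?_) ?_
  · exact ContDiffOn.sum (fun p _ => (contDiffOn_Lf p.1 p.2 v).mul (contDiffOn_Lf p.1 p.2 w))
  · exact (contDiff_const.mul (ContDiff.sum (fun m _ =>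
      ((contDiff_Mre m v).mul (contDiff_Mre m w)).add
        ((contDiff_Mim m v).mul (contDiff_Mim m w))))).contDiffOn

end smooth

end Pool.Agent.Lib.MP_813774_gt
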