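import Mathlib

/-!
Paths in the ordered configuration space of the disk: chambers, half turns and positive words.
-/

set_option autoImplicit false

namespace Pool.Agent.Lib.MP_813774_gt

open Set unitInterval

/-- Ordered configurations of `n` distinct points of the open unit disk. -/
abbrev Conf (n : ℕ) : Type := {f : Fin n → ℂ // Function.Injective f ∧ ∀ m, ‖f m‖ < 1}

/-- The base configuration with its points relabelled by `ρ`. -/
noncomputable def basePt (n : ℕ) (ρ : Equiv.Perm (Fin n)) : Fin n → ℂ :=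
  fun m => (((2 * ((ρ m : ℕ) : ℝ) + 1) / (n : ℝ) - 1 : ℝ) : ℂ)

/-- The standard counterclockwise half turn of the points in positions `i` and `i + 1`. -/
noncomputable def halfTurn (n : ℕ) (ρ : Equiv.Perm (Fin n)) (i : ℕ) (s : ℝ) : Fin n → ℂ :=
  fun m =>
    if ((ρ m : ℕ)) = i then
      (((2 * (i : ℝ) + 2) / (n : ℝ) - 1 : ℝ) : ℂ)
        - ((1 / (n : ℝ) : ℝ) : ℂ) * Complex.exp ((Real.pi : ℂ) * (s : ℂ) * Complex.I)
    else if ((ρ m : ℕ)) = i + 1 then
      (((2 * (i : ℝ) + 2) / (n : ℝ) - 1 : ℝ) : ℂ)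
        + ((1 / (n : ℝ) : ℝ) : ℂ) * Complex.exp ((Real.pi : ℂ) * (s : ℂ) * Complex.I)
    else (((2 * ((ρ m : ℕ) : ℝ) + 1) / (n : ℝ) - 1 : ℝ) : ℂ)

theorem homotopic_of_star {n : ℕ} (W : Set (Fin n → ℂ)) (w : Fin n → ℂ) (hw : w ∈ W)
    (hstar : StarConvex ℝ w W)
    (hsub : ∀ z ∈ W, Function.Injective z ∧ ∀ m, ‖z m‖ < 1) {a b : Conf n} (γ δ : Path a b)
    (hγ : ∀ t, (γ t).1 ∈ W) (hδ : ∀ t, (δ t).1 ∈ W) : γ.Homotopic δ := by
  have : ContractibleSpace W := hstar.contractibleSpace ⟨w, hw⟩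
  have ha : a.1 ∈ W := by simpa using hγ 0
  have hb : b.1 ∈ W := by simpa using hγ 1
  let γ' : Path (⟨a.1, ha⟩ : W) (⟨b.1, hb⟩ : W) :=
    { toFun := fun t => ⟨(γ t).1, hγ t⟩
      continuous_toFun := by fun_prop
      source' := by simp
      target' := by simp }
  let δ' : Path (⟨a.1, ha⟩ : W) (⟨b.1, hb⟩ : W) :=
    { toFun := fun t => ⟨(δ t).1, hδ t⟩
      continuous_toFun := by fun_prop
      source' := by simp
      target' := by simp }
  let ι : C(W, Conf n) := ⟨fun z => ⟨z.1, hsub z.1 z.2⟩, by fun_prop⟩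
  have h := (SimplyConnectedSpace.paths_homotopic γ' δ').map ι
  exact h

theorem homotopic_of_convex {n : ℕ} (W : Set (Fin n → ℂ)) (hconv : Convex ℝ W)
    (hsub : ∀ z ∈ W, Function.Injective z ∧ ∀ m, ‖z m‖ < 1) {a b : Conf n} (γ δ : Path a b)
    (hγ : ∀ t, (γ t).1 ∈ W) (hδ : ∀ t, (δ t).1 ∈ W) : γ.Homotopic δ :=
  homotopic_of_star W _ (hγ 0) (hconv (hγ 0)) hsub γ δ hγ hδ

theorem exists_path_of_convex {n : ℕ} (W : Set (Fin n → ℂ)) (hconv : Convex ℝ W)
    (hsub : ∀ z ∈ W, Function.Injective z ∧ ∀ m, ‖z m‖ < 1) (a b : Conf n)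
    (ha : a.1 ∈ W) (hb : b.1 ∈ W) : ∃ δ : Path a b, ∀ t, (δ t).1 ∈ W := by
  have hmem : ∀ t : I, (1 - (t : ℝ)) • a.1 + (t : ℝ) • b.1 ∈ W := fun t =>
    hconv ha hb (sub_nonneg.2 t.2.2) t.2.1 (by ring)
  refine ⟨{ toFun := fun t => ⟨(1 - (t : ℝ)) • a.1 + (t : ℝ) • b.1, hsub _ (hmem t)⟩
            continuous_toFun := by fun_prop
            source' := by simp
            target' := by simp }, fun t => hmem t⟩

theorem homotopic_of_factor {X : Type*} [TopologicalSpace X] {a b : X} (F : ℝ → X)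
    (hF : Continuous F) (γ δ : Path a b) (φ ψ : I → ℝ) (hφ : Continuous φ) (hψ : Continuous ψ)
    (h0 : φ 0 = ψ 0) (h1 : φ 1 = ψ 1) (hγ : ∀ t, γ t = F (φ t)) (hδ : ∀ t, δ t = F (ψ t)) :
    γ.Homotopic δ := by
  refine ⟨{ toFun := fun x => F ((1 - (x.1 : ℝ)) * φ x.2 + (x.1 : ℝ) * ψ x.2)
            continuous_toFun := by fun_prop
            map_zero_left := fun t => by simp [hγ]
            map_one_left := fun t => by simp [hδ]
            prop' := ?_ }⟩
  intro s t ht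
  rcases ht with rfl | rfl
  · simp only [ContinuousMap.coe_mk, Path.coe_toContinuousMap]
    rw [hγ, ← h0]; congr 1; ring
  · simp only [ContinuousMap.coe_mk, Path.coe_toContinuousMap]
    rw [hγ, ← h1]; congr 1; ring

theorem trans_mem {X : Type*} [TopologicalSpace X] {a b c : X} (γ : Path a b) (δ : Path b c)
    (p : X → Prop) (hγ : ∀ t, p (γ t)) (hδ : ∀ t, p (δ t)) : ∀ t, p ((γ.trans δ) t) := by
  intro t
  rw [Path.trans_apply]
  split_ifs
  · exact hγ _
  · exact hδ _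

/-- The path `c` is homotopic to a uniformly parametrised concatenation of half turns. -/
def IsPos {n : ℕ} (P q : Conf n) (c : Path P q) : Prop :=
  ∃ (k : ℕ) (F : ℝ → Conf n), Continuous F ∧
    (∀ j : ℕ, j < k → ∃ i : ℕ, i + 1 < n ∧ ∃ ρ : Equiv.Perm (Fin n),
      ∀ s : ℝ, 0 ≤ s → s ≤ 1 → (F ((j : ℝ) + s)).1 = halfTurn n ρ i s) ∧
    ∃ Γ : Path P q, (∀ t, Γ t = F ((k : ℝ) * t)) ∧ Γ.Homotopic c

theorem IsPos.refl {n : ℕ} (P : Conf n) : IsPos P P (Path.refl P) :=
  ⟨0, fun _ => P, continuous_const, fun j hj => absurd hj (Nat.not_lt_zero j),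
    Path.refl P, fun _ => rfl, Path.Homotopic.refl _⟩

theorem IsPos.of_homotopic {n : ℕ} {P q : Conf n} {c c' : Path P q} (h : IsPos P q c)
    (hc : c.Homotopic c') : IsPos P q c' := by
  obtain ⟨k, F, hF, hj, Γ, hΓ, hh⟩ := h
  exact ⟨k, F, hF, hj, Γ, hΓ, hh.trans hc⟩

theorem IsPos.step {n : ℕ} {P q q' : Conf n} {c : Path P q} (h : IsPos P q c)
    (H : Path q q') (i : ℕ) (hi : i + 1 < n) (ρ : Equiv.Perm (Fin n))
    (hH : ∀ s : I, (H s).1 = halfTurn n ρ i s) : IsPos P q' (c.trans H) := by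
  obtain ⟨k, F, hF, hj, Γ, hΓ, hh⟩ := h
  have hFk : F k = q := by
    have := hΓ 1
    simpa using this.symm
  have hF0 : F 0 = P := by
    have := hΓ 0
    simpa using this.symm
  let F' : ℝ → Conf n := fun t => if t ≤ (k : ℝ) then F t else H.extend (t - k)
  have hF' : Continuous F' := by
    refine Continuous.if_le hF (by fun_prop) continuous_id continuous_const ?_
    intro t ht
    rw [show t = (k : ℝ) from ht, hFk]; simp
  have hle : ∀ t : ℝ, t ≤ k → F' t = F t := fun t ht => by simp [F', ht]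
  have hge : ∀ t : ℝ, (k : ℝ) ≤ t → F' t = H.extend (t - k) := by
    intro t ht
    rcases ht.eq_or_lt with h | h
    · rw [← h, hle _ le_rfl, hFk]; simp
    · simp [F', not_le.2 h]
  let Γ' : Path P q' :=
    { toFun := fun t => F' (((k + 1 : ℕ) : ℝ) * t)
      continuous_toFun := by fun_prop
      source' := by
        have : (0 : ℝ) ≤ k := Nat.cast_nonneg k
        simp [hle 0 this, hF0]
      target' := by
        have : (k : ℝ) ≤ (k : ℝ) + 1 := by linarith
        simp [hge _ this] }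
  refine ⟨k + 1, F', hF', ?_, Γ', fun t => rfl, ?_⟩
  · intro j hjk
    rcases Nat.lt_succ_iff_lt_or_eq.1 hjk with h | h
    · obtain ⟨i', hi', ρ', hρ'⟩ := hj j h
      refine ⟨i', hi', ρ', fun s hs0 hs1 => ?_⟩
      have : (j : ℝ) + 1 ≤ k := by exact_mod_cast h
      rw [hle _ (by linarith)]
      exact hρ' s hs0 hs1
    · subst h
      refine ⟨i, hi, ρ, fun s hs0 hs1 => ?_⟩
      rw [hge _ (by linarith), add_sub_cancel_left, Path.extend_apply _ ⟨hs0, hs1⟩]
      exact hH ⟨s, hs0, hs1⟩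
  · refine Path.Homotopic.trans ?_ (hh.hcomp (Path.Homotopic.refl H))
    refine homotopic_of_factor F' hF' Γ' (Γ.trans H) (fun t => ((k + 1 : ℕ) : ℝ) * t)
      (fun t => if (t : ℝ) ≤ 1 / 2 then (k : ℝ) * (2 * t) else (k : ℝ) + (2 * t - 1))
      (by fun_prop) ?_ (by simp) (by norm_num) (fun t => rfl) ?_
    · refine Continuous.if_le (by fun_prop) (by fun_prop) (by fun_prop) continuous_const ?_
      intro t ht
      rw [ht]; ring
    · intro t
      rw [Path.trans_apply]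
      have hk : (0 : ℝ) ≤ k := Nat.cast_nonneg k
      split_ifs with ht
      · rw [hΓ, hle]
        nlinarith [t.2.1]
      · rw [hge _ (by linarith [not_le.1 ht]), add_sub_cancel_left, Path.extend_apply]

end Pool.Agent.Lib.MP_813774_gt
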