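import Pool.Agent.Lib.MP_813774_gt.Topo1

/-!
Chambers, walls and the crossing of one wall.
-/

set_option autoImplicit false

namespace Pool.Agent.Lib.MP_813774_gt

open Set unitInterval

/-- The chamber of configurations whose real parts are ordered by `ρ`. -/
def Cham (n : ℕ) (ρ : Equiv.Perm (Fin n)) : Set (Fin n → ℂ) :=
  {z | (∀ m, ‖z m‖ < 1) ∧ ∀ k l, ρ k < ρ l → (z k).re < (z l).re}

theorem norm_comb_lt {x y : ℂ} (hx : ‖x‖ < 1) (hy : ‖y‖ < 1) {a b : ℝ} (ha : 0 ≤ a)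
    (hb : 0 ≤ b) (hab : a + b = 1) : ‖a • x + b • y‖ < 1 := by
  have h := (convex_ball (0 : ℂ) 1) (x := x) (by simpa using hx) (y := y) (by simpa using hy)
    ha hb hab
  simpa using h

theorem comb_lt {x y x' y' a b : ℝ} (hx : x < x') (hy : y < y') (ha : 0 ≤ a)
    (hb : 0 ≤ b) (hab : a + b = 1) : a * x + b * y < a * x' + b * y' := by
  rcases ha.eq_or_lt with h | h
  · have : b = 1 := by linarith
    rw [← h, this]; linarith
  · nlinarith [mul_pos h (sub_pos.2 hx), mul_nonneg hb (sub_pos.2 hy).le]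

theorem convex_Cham (n : ℕ) (ρ : Equiv.Perm (Fin n)) : Convex ℝ (Cham n ρ) := by
  intro x hx y hy a b ha hb hab
  refine ⟨fun m => norm_comb_lt (hx.1 m) (hy.1 m) ha hb hab, fun k l hkl => ?_⟩
  simpa using comb_lt (hx.2 k l hkl) (hy.2 k l hkl) ha hb hab

theorem Cham_sub (n : ℕ) (ρ : Equiv.Perm (Fin n)) :
    ∀ z ∈ Cham n ρ, Function.Injective z ∧ ∀ m, ‖z m‖ < 1 := by
  intro z hz
  refine ⟨fun k l hkl => ?_, hz.1⟩
  by_contra hne
  rcases lt_or_gt_of_ne (ρ.injective.ne hne) with h | h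
  · have := hz.2 k l h
    rw [hkl] at this; exact lt_irrefl _ this
  · have := hz.2 l k h
    rw [hkl] at this; exact lt_irrefl _ this

theorem basePt_mem (n : ℕ) (ρ : Equiv.Perm (Fin n)) : basePt n ρ ∈ Cham n ρ := by
  refine ⟨fun m => ?_, fun k l hkl => ?_⟩
  · have hn : (0 : ℝ) < n := by exact_mod_cast m.pos
    have h1 : ((ρ m : ℕ) : ℝ) + 1 ≤ n := by exact_mod_cast (ρ m).2
    have h0 : (0 : ℝ) ≤ ((ρ m : ℕ) : ℝ) := Nat.cast_nonneg _
    simp only [basePt, Complex.norm_real, Real.norm_eq_abs, abs_lt]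
    constructor
    · have : 0 < (2 * ((ρ m : ℕ) : ℝ) + 1) / n := by positivity
      linarith
    · have : (2 * ((ρ m : ℕ) : ℝ) + 1) / n < 2 := by
        rw [div_lt_iff₀ hn]; linarith
      linarith
  · have hn : (0 : ℝ) < n := by exact_mod_cast k.pos
    have h1 : ((ρ k : ℕ) : ℝ) < ((ρ l : ℕ) : ℝ) := by exact_mod_cast hkl
    simp only [basePt, Complex.ofReal_re]
    have : (2 * ((ρ k : ℕ) : ℝ) + 1) / n < (2 * ((ρ l : ℕ) : ℝ) + 1) / n := by
      apply div_lt_div_of_pos_right _ hn; linarith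
    linarith

theorem perm_eq_of_adj {n : ℕ} (ρ ρ' : Equiv.Perm (Fin n))
    (h : ∀ a b : Fin n, (ρ b : ℕ) = ρ a + 1 → ρ' a < ρ' b) : ρ = ρ' := by
  rcases n with _ | n
  · exact Subsingleton.elim _ _
  have hmono : StrictMono (fun i => ρ' (ρ.symm i)) := by
    rw [Fin.strictMono_iff_lt_succ]
    intro i
    apply h
    simp
  have hid : (fun i => ρ' (ρ.symm i)) = id := hmono.eq_id
  ext x
  have := congrFun hid (ρ x)
  simp only [Equiv.symm_apply_apply, id] at this
  rw [this]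

theorem perm_eq_of_Cham {n : ℕ} {ρ ρ' : Equiv.Perm (Fin n)} {z : Fin n → ℂ}
    (h : z ∈ Cham n ρ) (h' : z ∈ Cham n ρ') : ρ = ρ' := by
  apply perm_eq_of_adj
  intro a b hab
  have h1 : ρ a < ρ b := by rw [Fin.lt_def]; omega
  have h2 := h.2 a b h1
  by_contra hcon
  rcases (not_lt.1 hcon).eq_or_lt with h3 | h3
  · have : b = a := ρ'.injective h3
    rw [this] at h1; exact lt_irrefl _ h1
  · have := h'.2 b a h3
    linarith

theorem exists_Cham {n : ℕ} (z : Fin n → ℂ) (hz : ∀ m, ‖z m‖ < 1)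
    (hgen : ∀ k l, k ≠ l → (z k).re ≠ (z l).re) : ∃ ρ, z ∈ Cham n ρ := by
  let f : Fin n → ℝ := fun m => (z m).re
  refine ⟨(Tuple.sort f).symm, hz, fun k l hkl => ?_⟩
  have hmono := Tuple.monotone_sort f hkl.le
  simp only [Function.comp, Equiv.apply_symm_apply] at hmono
  refine lt_of_le_of_ne hmono (hgen k l ?_)
  rintro rfl
  exact lt_irrefl _ hkl

theorem swap_lt_iff {n : ℕ} (ρ : Equiv.Perm (Fin n)) (a b : Fin n) (hab : (ρ b : ℕ) = ρ a + 1)
    (k l : Fin n) : ρ (Equiv.swap a b k) < ρ (Equiv.swap a b l) ↔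
      (ρ k < ρ l ∧ ¬ (k = a ∧ l = b)) ∨ (k = b ∧ l = a) := by
  have hne : a ≠ b := by rintro rfl; omega
  have key : ∀ m : Fin n, m ≠ a → m ≠ b → (ρ m : ℕ) ≠ ρ a ∧ (ρ m : ℕ) ≠ ρ b := fun m h1 h2 =>
    ⟨fun h => h1 (ρ.injective (Fin.ext h)), fun h => h2 (ρ.injective (Fin.ext h))⟩
  simp only [Fin.lt_def]
  by_cases hka : k = a
  · subst hka
    by_cases hla : l = k
    · subst hla; simp [hne]
    · by_cases hlb : l = b
      · subst hlb; simp [hne]; omega
      · have := key l hla hlb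
        simp [Equiv.swap_apply_of_ne_of_ne hla hlb, hne, hlb]; omega
  · by_cases hkb : k = b
    · subst hkb
      by_cases hla : l = a
      · subst hla; simp [hka]; omega
      · by_cases hlb : l = k
        · subst hlb; simp [hka]
        · have := key l hla hlb
          simp [Equiv.swap_apply_of_ne_of_ne hla hlb, hka, hla]; omega
    · have hk := key k hka hkb
      rw [Equiv.swap_apply_of_ne_of_ne hka hkb]
      by_cases hla : l = a
      · subst hla; simp [hka, hkb]; omega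
      · by_cases hlb : l = b
        · subst hlb; simp [hka, hkb]; omega
        · simp [Equiv.swap_apply_of_ne_of_ne hla hlb, hka, hkb]

/-- The union of two adjacent chambers and the half of their common wall that is crossed by the
positive half turn. -/
def Wset (n : ℕ) (ρ : Equiv.Perm (Fin n)) (a b : Fin n) : Set (Fin n → ℂ) :=
  {z | (∀ m, ‖z m‖ < 1) ∧ (∀ k l, ρ k < ρ l → ¬ (k = a ∧ l = b) → (z k).re < (z l).re) ∧
    ((z a).re = (z b).re → (z a).im < (z b).im)}

theorem Wset_sub (n : ℕ) (ρ : Equiv.Perm (Fin n)) (a b : Fin n) :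
    ∀ z ∈ Wset n ρ a b, Function.Injective z ∧ ∀ m, ‖z m‖ < 1 := by
  intro z hz
  have key : ∀ k l, ρ k < ρ l → z k ≠ z l := by
    intro k l h hkl
    by_cases hc : k = a ∧ l = b
    · obtain ⟨rfl, rfl⟩ := hc
      have := hz.2.2 (by rw [hkl])
      rw [hkl] at this; exact lt_irrefl _ this
    · have := hz.2.1 k l h hc
      rw [hkl] at this; exact lt_irrefl _ this
  refine ⟨fun k l hkl => ?_, hz.1⟩
  by_contra hne
  rcases lt_or_gt_of_ne (ρ.injective.ne hne) with h | h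
  · exact key k l h hkl
  · exact key l k h hkl.symm

theorem Wset_star (n : ℕ) (ρ : Equiv.Perm (Fin n)) (a b : Fin n) (w : Fin n → ℂ)
    (hw : w ∈ Wset n ρ a b) (hre : (w a).re = (w b).re) : StarConvex ℝ w (Wset n ρ a b) := by
  intro y hy s t hs ht hst
  refine ⟨fun m => norm_comb_lt (hw.1 m) (hy.1 m) hs ht hst, fun k l hkl hc => ?_, fun h => ?_⟩
  · simpa using comb_lt (hw.2.1 k l hkl hc) (hy.2.1 k l hkl hc) hs ht hst
  · have him := hw.2.2 hre
    simp only [Pi.add_apply, Pi.smul_apply, Complex.real_smul, Complex.add_re, Complex.mul_re,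
      Complex.ofReal_re, Complex.ofReal_im, zero_mul, sub_zero, Complex.add_im, Complex.mul_im,
      add_zero] at h ⊢
    rcases ht.eq_or_lt with h0 | h0
    · have : s = 1 := by linarith
      rw [← h0, this]; linarith
    · have h1 : (y a).re = (y b).re := by
        rw [hre] at h
        have : t * (y a).re = t * (y b).re := by linarith
        exact mul_left_cancel₀ h0.ne' this
      exact comb_lt him (hy.2.2 h1) hs ht hst

theorem Cham_sub_Wset (n : ℕ) (ρ : Equiv.Perm (Fin n)) (a b : Fin n)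
    (hab : (ρ b : ℕ) = ρ a + 1) : Cham n ρ ⊆ Wset n ρ a b := by
  intro z hz
  refine ⟨hz.1, fun k l hkl _ => hz.2 k l hkl, fun h => ?_⟩
  have h1 : ρ a < ρ b := by rw [Fin.lt_def]; omega
  exact absurd h (hz.2 a b h1).ne

theorem Cham_swap_sub_Wset (n : ℕ) (ρ : Equiv.Perm (Fin n)) (a b : Fin n)
    (hab : (ρ b : ℕ) = ρ a + 1) : Cham n ((Equiv.swap a b).trans ρ) ⊆ Wset n ρ a b := by
  intro z hz
  refine ⟨hz.1, fun k l hkl hc => hz.2 k l ?_, fun h => ?_⟩
  · exact (swap_lt_iff ρ a b hab k l).2 (Or.inl ⟨hkl, hc⟩)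
  · have := hz.2 b a ((swap_lt_iff ρ a b hab b a).2 (Or.inr ⟨rfl, rfl⟩))
    exact absurd h this.ne'

theorem exp_re (s : ℝ) : (Complex.exp ((Real.pi : ℂ) * (s : ℂ) * Complex.I)).re
    = Real.cos (Real.pi * s) := by
  rw [← Complex.ofReal_mul, Complex.exp_ofReal_mul_I_re]

theorem exp_im (s : ℝ) : (Complex.exp ((Real.pi : ℂ) * (s : ℂ) * Complex.I)).im
    = Real.sin (Real.pi * s) := by
  rw [← Complex.ofReal_mul, Complex.exp_ofReal_mul_I_im]

theorem exp_norm (s : ℝ) : ‖Complex.exp ((Real.pi : ℂ) * (s : ℂ) * Complex.I)‖ = 1 := by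
  rw [← Complex.ofReal_mul, Complex.norm_exp_ofReal_mul_I]

theorem halfTurn_re (n : ℕ) (ρ : Equiv.Perm (Fin n)) (i : ℕ) (s : ℝ) (m : Fin n) :
    (halfTurn n ρ i s m).re =
      if ((ρ m : ℕ)) = i then (2 * (i : ℝ) + 2) / n - 1 - 1 / n * Real.cos (Real.pi * s)
      else if ((ρ m : ℕ)) = i + 1 then (2 * (i : ℝ) + 2) / n - 1 + 1 / n * Real.cos (Real.pi * s)
      else (2 * ((ρ m : ℕ) : ℝ) + 1) / n - 1 := by
  unfold halfTurn
  split_ifs
  · rw [Complex.sub_re, Complex.ofReal_re, Complex.re_ofReal_mul, exp_re]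
  · rw [Complex.add_re, Complex.ofReal_re, Complex.re_ofReal_mul, exp_re]
  · rw [Complex.ofReal_re]

theorem halfTurn_im (n : ℕ) (ρ : Equiv.Perm (Fin n)) (i : ℕ) (s : ℝ) (m : Fin n) :
    (halfTurn n ρ i s m).im =
      if ((ρ m : ℕ)) = i then - (1 / n * Real.sin (Real.pi * s))
      else if ((ρ m : ℕ)) = i + 1 then 1 / n * Real.sin (Real.pi * s)
      else 0 := by
  unfold halfTurn
  split_ifs
  · rw [Complex.sub_im, Complex.ofReal_im, Complex.im_ofReal_mul, exp_im, zero_sub]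
  · rw [Complex.add_im, Complex.ofReal_im, Complex.im_ofReal_mul, exp_im, zero_add]
  · rw [Complex.ofReal_im]

theorem halfTurn_norm_lt (n : ℕ) (ρ : Equiv.Perm (Fin n)) (i : ℕ) (hi : i + 1 < n) (s : ℝ)
    (m : Fin n) : ‖halfTurn n ρ i s m‖ < 1 := by
  have hn : (0 : ℝ) < n := by exact_mod_cast m.pos
  have hi' : (i : ℝ) + 2 ≤ n := by exact_mod_cast hi
  have hi0 : (0 : ℝ) ≤ i := Nat.cast_nonneg _
  have hc : ‖(((2 * (i : ℝ) + 2) / (n : ℝ) - 1 : ℝ) : ℂ)‖ ≤ 1 - 2 / n := by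
    rw [Complex.norm_real, Real.norm_eq_abs, abs_le]
    constructor
    · have : 2 / (n : ℝ) ≤ (2 * (i : ℝ) + 2) / n := by
        apply div_le_div_of_nonneg_right _ hn.le; linarith
      linarith
    · have : (2 * (i : ℝ) + 2) / n + 2 / n ≤ 2 := by
        rw [← add_div, div_le_iff₀ hn]; linarith
      linarith
  have he : ‖((1 / (n : ℝ) : ℝ) : ℂ) * Complex.exp ((Real.pi : ℂ) * (s : ℂ) * Complex.I)‖
      = 1 / n := by
    rw [norm_mul, exp_norm, mul_one, Complex.norm_real, Real.norm_eq_abs, abs_of_pos]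
    positivity
  have h12 : 1 / (n : ℝ) < 2 / n := by
    apply div_lt_div_of_pos_right _ hn; norm_num
  unfold halfTurn
  split_ifs
  · refine (norm_sub_le _ _).trans_lt ?_
    rw [he]; linarith
  · refine (norm_add_le _ _).trans_lt ?_
    rw [he]; linarith
  · exact (basePt_mem n ρ).1 m

/-- Along a half turn, two points other than the turning pair have real parts `2 / n` apart. -/
theorem halfTurn_gap (n : ℕ) (ρ : Equiv.Perm (Fin n)) (i : ℕ) (s : ℝ) (k l : Fin n)
    (hkl : ρ k < ρ l) (hc : ¬ ((ρ k : ℕ) = i ∧ (ρ l : ℕ) = i + 1)) :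
    (halfTurn n ρ i s k).re + 2 / n ≤ (halfTurn n ρ i s l).re := by
  have hn : (0 : ℝ) < n := by exact_mod_cast k.pos
  have hc1 := Real.cos_le_one (Real.pi * s)
  have hc2 := Real.neg_one_le_cos (Real.pi * s)
  rw [Fin.lt_def] at hkl
  rw [halfTurn_re, halfTurn_re]
  have e : ∀ x y : ℝ, x + 2 ≤ y → x / n - 1 + 2 / n ≤ y / n - 1 := by
    intro x y h
    have : (x + 2) / n ≤ y / n := div_le_div_of_nonneg_right h hn.le
    rw [add_div] at this; linarith
  have e1 : ∀ x c : ℝ, x / n - 1 - 1 / n * c = (x - c) / n - 1 := by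
    intro x c; field_simp; ring
  have e2 : ∀ x c : ℝ, x / n - 1 + 1 / n * c = (x + c) / n - 1 := by
    intro x c; field_simp; ring
  split_ifs with h1 h2 h3 h4 h5 h6 h7 h8
  · omega
  · omega
  · rw [e1]; apply e
    have : (i : ℝ) + 2 ≤ ((ρ l : ℕ) : ℝ) := by exact_mod_cast (by omega : i + 2 ≤ (ρ l : ℕ))
    linarith
  · omega
  · omega
  · rw [e2]; apply e
    have : (i : ℝ) + 2 ≤ ((ρ l : ℕ) : ℝ) := by exact_mod_cast (by omega : i + 2 ≤ (ρ l : ℕ))
    linarith
  · rw [e1]; apply e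
    have : ((ρ k : ℕ) : ℝ) + 1 ≤ (i : ℝ) := by exact_mod_cast (by omega : (ρ k : ℕ) + 1 ≤ i)
    linarith
  · rw [e2]; apply e
    have : ((ρ k : ℕ) : ℝ) + 1 ≤ (i : ℝ) := by exact_mod_cast (by omega : (ρ k : ℕ) + 1 ≤ i)
    linarith
  · apply e
    have : ((ρ k : ℕ) : ℝ) + 1 ≤ ((ρ l : ℕ) : ℝ) := by exact_mod_cast hkl
    linarith

theorem halfTurn_mem_Wset (n : ℕ) (ρ : Equiv.Perm (Fin n)) (a b : Fin n)
    (hab : (ρ b : ℕ) = ρ a + 1) (s : ℝ) (hs0 : 0 ≤ s) (hs1 : s ≤ 1) :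
    halfTurn n ρ (ρ a) s ∈ Wset n ρ a b := by
  have hn : (0 : ℝ) < n := by exact_mod_cast a.pos
  refine ⟨halfTurn_norm_lt n ρ _ (by rw [← hab]; exact (ρ b).2) s, fun k l hkl hc => ?_,
    fun h => ?_⟩
  · have := halfTurn_gap n ρ (ρ a) s k l hkl (by
      rintro ⟨h1, h2⟩
      exact hc ⟨ρ.injective (Fin.ext h1), ρ.injective (Fin.ext (h2.trans hab.symm))⟩)
    have h2 : 0 < 2 / (n : ℝ) := by positivity
    linarith
  · rw [halfTurn_re, halfTurn_re] at h
    rw [halfTurn_im, halfTurn_im]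
    simp only [if_true, hab] at h ⊢
    simp only [Nat.add_eq_left, one_ne_zero, if_false] at h ⊢
    have hcos : Real.cos (Real.pi * s) = 0 := by
      have h1 : 1 / (n : ℝ) * Real.cos (Real.pi * s) = 0 := by linarith
      rcases mul_eq_zero.1 h1 with h2 | h2
      · exact absurd h2 (by positivity)
      · exact h2
    have hsin : 0 ≤ Real.sin (Real.pi * s) :=
      Real.sin_nonneg_of_nonneg_of_le_pi (by positivity) (by nlinarith [Real.pi_pos])
    have hsq := Real.sin_sq_add_cos_sq (Real.pi * s)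
    have hpos : 0 < Real.sin (Real.pi * s) := by
      rcases hsin.eq_or_lt with h2 | h2
      · rw [← h2, hcos] at hsq; norm_num at hsq
      · exact h2
    have : 0 < 1 / (n : ℝ) * Real.sin (Real.pi * s) := by positivity
    linarith

theorem halfTurn_zero (n : ℕ) (ρ : Equiv.Perm (Fin n)) (i : ℕ) :
    halfTurn n ρ i 0 = basePt n ρ := by
  funext m
  have hn : (n : ℂ) ≠ 0 := by exact_mod_cast m.pos.ne'
  unfold halfTurn basePt
  split_ifs with h1 h2
  · rw [h1]; simp; field_simp; ring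
  · rw [h2]; simp; field_simp; ring
  · rfl

theorem halfTurn_one (n : ℕ) (ρ : Equiv.Perm (Fin n)) (a b : Fin n)
    (hab : (ρ b : ℕ) = ρ a + 1) :
    halfTurn n ρ (ρ a) 1 = basePt n ((Equiv.swap a b).trans ρ) := by
  funext m
  have hn : (n : ℂ) ≠ 0 := by exact_mod_cast m.pos.ne'
  unfold halfTurn basePt
  split_ifs with h1 h2
  · have : m = a := ρ.injective (Fin.ext h1)
    subst this
    simp [hab, Complex.exp_pi_mul_I]; field_simp; ring
  · have : m = b := ρ.injective (Fin.ext (h2.trans hab.symm))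
    subst this
    simp [Complex.exp_pi_mul_I]; field_simp; ring
  · have ha : m ≠ a := by rintro rfl; exact h1 rfl
    have hb : m ≠ b := by rintro rfl; exact h2 hab
    simp [Equiv.swap_apply_of_ne_of_ne ha hb]

theorem continuous_halfTurn (n : ℕ) (ρ : Equiv.Perm (Fin n)) (i : ℕ) :
    Continuous (halfTurn n ρ i) := by
  refine continuous_pi fun m => ?_
  unfold halfTurn
  split_ifs <;> fun_prop

end Pool.Agent.Lib.MP_813774_gt
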