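import Pool.Agent.Lib.MP_813774_gt.Topo2

/-!
A path that crosses every wall positively is homotopic to a positive word.
-/

set_option autoImplicit false

namespace Pool.Agent.Lib.MP_813774_gt

open Set unitInterval Filter Topology

/-- The path `c` is a positive word followed by a path inside the chamber of `ρ`. -/
def PosTo {n : ℕ} (P : Conf n) (ρ : Equiv.Perm (Fin n)) (z : Conf n) (c : Path P z) : Prop :=
  ∃ (q : Conf n) (γ : Path P q) (β : Path q z), q.1 = basePt n ρ ∧ IsPos P q γ ∧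
    (∀ t, (β t).1 ∈ Cham n ρ) ∧ (γ.trans β).Homotopic c

theorem PosTo.of_homotopic {n : ℕ} {P z : Conf n} {ρ : Equiv.Perm (Fin n)} {c c' : Path P z}
    (h : PosTo P ρ z c) (hc : c.Homotopic c') : PosTo P ρ z c' := by
  obtain ⟨q, γ, β, h1, h2, h3, h4⟩ := h
  exact ⟨q, γ, β, h1, h2, h3, h4.trans hc⟩

theorem PosTo.cham {n : ℕ} {P z z' : Conf n} {ρ : Equiv.Perm (Fin n)} {c : Path P z}
    (h : PosTo P ρ z c) (δ : Path z z') (hδ : ∀ t, (δ t).1 ∈ Cham n ρ) :
    PosTo P ρ z' (c.trans δ) := by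
  obtain ⟨q, γ, β, h1, h2, h3, h4⟩ := h
  refine ⟨q, γ, β.trans δ, h1, h2, trans_mem β δ (fun x => x.1 ∈ Cham n ρ) h3 hδ, ?_⟩
  exact (Path.Homotopic.trans_assoc γ β δ).symm.trans (h4.hcomp (Path.Homotopic.refl δ))

theorem PosTo.cross {n : ℕ} {P z z' : Conf n} {ρ : Equiv.Perm (Fin n)} {c : Path P z}
    (h : PosTo P ρ z c) (a b : Fin n) (hab : (ρ b : ℕ) = ρ a + 1) (δ : Path z z')
    (hδ : ∀ t, (δ t).1 ∈ Wset n ρ a b) (hz' : z'.1 ∈ Cham n ((Equiv.swap a b).trans ρ)) :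
    PosTo P ((Equiv.swap a b).trans ρ) z' (c.trans δ) := by
  obtain ⟨q, γ, β, h1, h2, h3, h4⟩ := h
  set ρ₁ := (Equiv.swap a b).trans ρ with hρ₁
  let q₁ : Conf n := ⟨basePt n ρ₁, Cham_sub n ρ₁ _ (basePt_mem n ρ₁)⟩
  have hmem : ∀ s : I, halfTurn n ρ (ρ a) s ∈ Wset n ρ a b := fun s =>
    halfTurn_mem_Wset n ρ a b hab s s.2.1 s.2.2
  let H : Path q q₁ :=
    { toFun := fun s => ⟨halfTurn n ρ (ρ a) s, Wset_sub n ρ a b _ (hmem s)⟩
      continuous_toFun :=
        ((continuous_halfTurn n ρ (ρ a)).comp continuous_subtype_val).subtype_mk _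
      source' := by
        apply Subtype.ext
        simp [halfTurn_zero, h1]
      target' := by
        apply Subtype.ext
        simp only [Icc.coe_one]
        exact halfTurn_one n ρ a b hab }
  obtain ⟨β₁, hβ₁⟩ := exists_path_of_convex (Cham n ρ₁) (convex_Cham n ρ₁) (Cham_sub n ρ₁) q₁ z'
    (basePt_mem n ρ₁) hz'
  have hi : (ρ a : ℕ) + 1 < n := by rw [← hab]; exact (ρ b).2
  refine ⟨q₁, γ.trans H, β₁, rfl, h2.step H (ρ a) hi ρ (fun s => rfl), hβ₁, ?_⟩
  have hw : halfTurn n ρ (ρ a) (1 / 2) ∈ Wset n ρ a b :=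
    halfTurn_mem_Wset n ρ a b hab _ (by norm_num) (by norm_num)
  have hre : (halfTurn n ρ (ρ a) (1 / 2) a).re = (halfTurn n ρ (ρ a) (1 / 2) b).re := by
    rw [halfTurn_re, halfTurn_re]
    have : Real.cos (Real.pi * (1 / 2)) = 0 := by
      rw [mul_one_div, Real.cos_pi_div_two]
    rw [this]
    simp [hab]
  have key : (H.trans β₁).Homotopic (β.trans δ) := by
    refine homotopic_of_star (Wset n ρ a b) _ hw (Wset_star n ρ a b _ hw hre) (Wset_sub n ρ a b)
      _ _ ?_ ?_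
    · exact trans_mem H β₁ (fun x => x.1 ∈ Wset n ρ a b) hmem
        (fun t => Cham_swap_sub_Wset n ρ a b hab (hβ₁ t))
    · exact trans_mem β δ (fun x => x.1 ∈ Wset n ρ a b)
        (fun t => Cham_sub_Wset n ρ a b hab (h3 t)) hδ
  exact (Path.Homotopic.trans_assoc γ H β₁).trans
    (((Path.Homotopic.refl γ).hcomp key).trans
      ((Path.Homotopic.trans_assoc γ β δ).symm.trans (h4.hcomp (Path.Homotopic.refl δ))))

/-- A convex neighbourhood of the configuration `z₀`. -/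
def Vset (n : ℕ) (z₀ : Fin n → ℂ) : Set (Fin n → ℂ) :=
  {z | (∀ m, ‖z m‖ < 1) ∧ (∀ k l, (z₀ k).re < (z₀ l).re → (z k).re < (z l).re) ∧
    (∀ k l, (z₀ k).re = (z₀ l).re → (z₀ k).im < (z₀ l).im → (z k).im < (z l).im)}

theorem convex_Vset (n : ℕ) (z₀ : Fin n → ℂ) : Convex ℝ (Vset n z₀) := by
  intro x hx y hy a b ha hb hab
  refine ⟨fun m => norm_comb_lt (hx.1 m) (hy.1 m) ha hb hab, fun k l hkl => ?_,
    fun k l h1 h2 => ?_⟩
  · simpa using comb_lt (hx.2.1 k l hkl) (hy.2.1 k l hkl) ha hb hab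
  · simpa using comb_lt (hx.2.2 k l h1 h2) (hy.2.2 k l h1 h2) ha hb hab

theorem Vset_sub (n : ℕ) (z₀ : Fin n → ℂ) (hz₀ : Function.Injective z₀) :
    ∀ z ∈ Vset n z₀, Function.Injective z ∧ ∀ m, ‖z m‖ < 1 := by
  intro z hz
  refine ⟨fun k l hkl => ?_, hz.1⟩
  by_contra hne
  rcases lt_trichotomy (z₀ k).re (z₀ l).re with h | h | h
  · have := hz.2.1 k l h
    rw [hkl] at this; exact lt_irrefl _ this
  · rcases lt_trichotomy (z₀ k).im (z₀ l).im with h' | h' | h'
    · have := hz.2.2 k l h h'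
      rw [hkl] at this; exact lt_irrefl _ this
    · exact hne (hz₀ (Complex.ext h h'))
    · have := hz.2.2 l k h.symm h'
      rw [hkl] at this; exact lt_irrefl _ this
  · have := hz.2.1 l k h
    rw [hkl] at this; exact lt_irrefl _ this

theorem PosTo.local_step {n : ℕ} (z₀ : Fin n → ℂ) (hz₀ : Function.Injective z₀)
    (ρ' : Equiv.Perm (Fin n)) {P z' : Conf n} (hz'V : z'.1 ∈ Vset n z₀)
    (hz'C : z'.1 ∈ Cham n ρ') (N : ℕ) :
    ∀ (ρ : Equiv.Perm (Fin n)) (z : Conf n) (c : Path P z) (δ : Path z z'),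
      (Finset.univ.filter (fun p : Fin n × Fin n => ρ p.1 < ρ p.2 ∧ ρ' p.2 < ρ' p.1)).card ≤ N →
      z.1 ∈ Cham n ρ → (∀ t, (δ t).1 ∈ Vset n z₀) →
      (∀ k l, ρ k < ρ l → ρ' l < ρ' k → (z₀ k).re = (z₀ l).re ∧ (z₀ k).im < (z₀ l).im) →
      PosTo P ρ z c → PosTo P ρ' z' (c.trans δ) := by
  have base : ∀ (ρ : Equiv.Perm (Fin n)) (z : Conf n) (c : Path P z) (δ : Path z z'),
      (∀ a b : Fin n, (ρ b : ℕ) = ρ a + 1 → ρ' a < ρ' b) →
      z.1 ∈ Cham n ρ → (∀ t, (δ t).1 ∈ Vset n z₀) → PosTo P ρ z c →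
      PosTo P ρ' z' (c.trans δ) := by
    intro ρ z c δ hadj hzC hδ hc
    obtain rfl := perm_eq_of_adj ρ ρ' hadj
    have hzV : z.1 ∈ Vset n z₀ := by simpa using hδ 0
    obtain ⟨δ', hδ'⟩ := exists_path_of_convex (Vset n z₀ ∩ Cham n ρ)
      ((convex_Vset n z₀).inter (convex_Cham n ρ)) (fun x hx => Cham_sub n ρ x hx.2) z z'
      ⟨hzV, hzC⟩ ⟨hz'V, hz'C⟩
    refine (hc.cham δ' (fun t => (hδ' t).2)).of_homotopic ((Path.Homotopic.refl c).hcomp ?_)
    exact homotopic_of_convex _ (convex_Vset n z₀) (Vset_sub n z₀ hz₀) _ _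
      (fun t => (hδ' t).1) hδ
  induction N with
  | zero =>
    intro ρ z c δ hcard hzC hδ _ hc
    refine base ρ z c δ (fun a b hab => ?_) hzC hδ hc
    by_contra hcon
    have h1 : ρ a < ρ b := by rw [Fin.lt_def]; omega
    have h2 : ρ' b < ρ' a := by
      refine lt_of_le_of_ne (not_lt.1 hcon) (fun h => ?_)
      rw [ρ'.injective h] at h1; exact lt_irrefl _ h1
    have : (a, b) ∈ Finset.univ.filter
        (fun p : Fin n × Fin n => ρ p.1 < ρ p.2 ∧ ρ' p.2 < ρ' p.1) := by simp [h1, h2]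
    have := Finset.card_pos.2 ⟨_, this⟩
    omega
  | succ N ih =>
    intro ρ z c δ hcard hzC hδ hinv hc
    by_cases hadj : ∀ a b : Fin n, (ρ b : ℕ) = ρ a + 1 → ρ' a < ρ' b
    · exact base ρ z c δ hadj hzC hδ hc
    push Not at hadj
    obtain ⟨a, b, hab, hcon⟩ := hadj
    have h1 : ρ a < ρ b := by rw [Fin.lt_def]; omega
    have h2 : ρ' b < ρ' a := by
      refine lt_of_le_of_ne hcon (fun h => ?_)
      rw [ρ'.injective h] at h1; exact lt_irrefl _ h1
    obtain ⟨hre, him⟩ := hinv a b h1 h2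
    have hzV : z.1 ∈ Vset n z₀ := by simpa using hδ 0
    set ρ₁ := (Equiv.swap a b).trans ρ with hρ₁
    have hρ₁lt : ∀ k l, ρ₁ k < ρ₁ l ↔ (ρ k < ρ l ∧ ¬ (k = a ∧ l = b)) ∨ (k = b ∧ l = a) :=
      swap_lt_iff ρ a b hab
    let w : Fin n → ℂ := fun m => ⟨(z.1 (Equiv.swap a b m)).re / 2, (z.1 m).im / 2⟩
    have hwn : ∀ m, ‖w m‖ < 1 := by
      intro m
      have e1 := (Complex.abs_re_le_norm (z.1 (Equiv.swap a b m))).trans_lt (z.2.2 _)
      have e2 := (Complex.abs_im_le_norm (z.1 m)).trans_lt (z.2.2 _)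
      refine (Complex.norm_le_abs_re_add_abs_im _).trans_lt ?_
      simp only [w, abs_div, abs_two]
      linarith
    have hz₀swap : ∀ m, (z₀ (Equiv.swap a b m)).re = (z₀ m).re := by
      intro m
      by_cases hma : m = a
      · subst hma; simp [hre]
      · by_cases hmb : m = b
        · subst hmb; simp [hre]
        · rw [Equiv.swap_apply_of_ne_of_ne hma hmb]
    have hwV : w ∈ Vset n z₀ := by
      refine ⟨hwn, fun k l hkl => ?_, fun k l e1 e2 => ?_⟩
      · have := hzV.2.1 (Equiv.swap a b k) (Equiv.swap a b l) (by rwa [hz₀swap, hz₀swap])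
        simp only [w]; linarith
      · have := hzV.2.2 k l e1 e2
        simp only [w]; linarith
    have hwC : w ∈ Cham n ρ₁ := by
      refine ⟨hwn, fun k l hkl => ?_⟩
      have := hzC.2 (Equiv.swap a b k) (Equiv.swap a b l) hkl
      simp only [w]; linarith
    let z₁ : Conf n := ⟨w, Cham_sub n ρ₁ w hwC⟩
    let U : Set (Fin n → ℂ) :=
      {x | ∀ k l, ρ k < ρ l → ¬ (k = a ∧ l = b) → (x k).re < (x l).re}
    have hU : Convex ℝ U := by
      intro x hx y hy s t hs ht hst k l hkl hc'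
      simpa using comb_lt (hx k l hkl hc') (hy k l hkl hc') hs ht hst
    obtain ⟨δ₁, hδ₁⟩ := exists_path_of_convex (Vset n z₀ ∩ U) ((convex_Vset n z₀).inter hU)
      (fun x hx => Vset_sub n z₀ hz₀ x hx.1) z z₁ ⟨hzV, fun k l hkl _ => hzC.2 k l hkl⟩
      ⟨hwV, (Cham_swap_sub_Wset n ρ a b hab hwC).2.1⟩
    obtain ⟨δ₂, hδ₂⟩ := exists_path_of_convex (Vset n z₀) (convex_Vset n z₀)
      (Vset_sub n z₀ hz₀) z₁ z' hwV hz'V
    have hc₁ : PosTo P ρ₁ z₁ (c.trans δ₁) :=
      hc.cross a b hab δ₁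
        (fun t => ⟨(hδ₁ t).1.1, (hδ₁ t).2, fun _ => (hδ₁ t).1.2.2 a b hre him⟩) hwC
    have hsub : ∀ k l, ρ₁ k < ρ₁ l → ρ' l < ρ' k → ρ k < ρ l ∧ ¬ (k = a ∧ l = b) := by
      intro k l e1 e2
      rcases (hρ₁lt k l).1 e1 with h | ⟨rfl, rfl⟩
      · exact h
      · exact absurd e2 (not_lt.2 h2.le)
    have hcard₁ : (Finset.univ.filter
        (fun p : Fin n × Fin n => ρ₁ p.1 < ρ₁ p.2 ∧ ρ' p.2 < ρ' p.1)).card ≤ N := by
      have hss : Finset.univ.filter
          (fun p : Fin n × Fin n => ρ₁ p.1 < ρ₁ p.2 ∧ ρ' p.2 < ρ' p.1) ⊂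
          Finset.univ.filter (fun p : Fin n × Fin n => ρ p.1 < ρ p.2 ∧ ρ' p.2 < ρ' p.1) := by
        rw [Finset.ssubset_iff_of_subset]
        · refine ⟨(a, b), by simp [h1, h2], ?_⟩
          simp only [Finset.mem_filter, Finset.mem_univ, true_and, not_and]
          intro e1 e2
          exact (hsub a b e1 e2).2 ⟨rfl, rfl⟩
        · intro p hp
          simp only [Finset.mem_filter, Finset.mem_univ, true_and] at hp ⊢
          exact ⟨(hsub _ _ hp.1 hp.2).1, hp.2⟩
      have := Finset.card_lt_card hss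
      omega
    have hfin := ih ρ₁ z₁ (c.trans δ₁) δ₂ hcard₁ hwC hδ₂
      (fun k l e1 e2 => hinv k l (hsub k l e1 e2).1 e2) hc₁
    refine hfin.of_homotopic ((Path.Homotopic.trans_assoc c δ₁ δ₂).trans
      ((Path.Homotopic.refl c).hcomp ?_))
    exact homotopic_of_convex _ (convex_Vset n z₀) (Vset_sub n z₀ hz₀) _ _
      (trans_mem δ₁ δ₂ (fun x => x.1 ∈ Vset n z₀) (fun t => (hδ₁ t).1) hδ₂) hδ

theorem PosTo.cast {n : ℕ} {P P' z z' : Conf n} {ρ : Equiv.Perm (Fin n)} {c : Path P z}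
    (h : PosTo P ρ z c) (hP : P = P') (hz : z = z') (c' : Path P' z') (hc : ∀ t, c t = c' t) :
    PosTo P' ρ z' c' := by
  subst hP hz
  have : c = c' := by ext1; funext t; exact hc t
  rwa [← this]

theorem eventually_Vset {n : ℕ} {P q : Conf n} (d : Path P q) (t₀ : I) :
    ∀ᶠ t in 𝓝 t₀, (d t).1 ∈ Vset n (d t₀).1 := by
  have hc : ∀ k, Continuous fun t : I => (d t).1 k := fun k =>
    (continuous_apply k).comp (continuous_subtype_val.comp d.continuous)
  have hre : ∀ k, Continuous fun t : I => ((d t).1 k).re := fun k =>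
    Complex.continuous_re.comp (hc k)
  have him : ∀ k, Continuous fun t : I => ((d t).1 k).im := fun k =>
    Complex.continuous_im.comp (hc k)
  have h1 : ∀ᶠ t in 𝓝 t₀, ∀ k l, ((d t₀).1 k).re < ((d t₀).1 l).re →
      ((d t).1 k).re < ((d t).1 l).re := by
    simp only [eventually_all]
    intro k l h
    exact ContinuousAt.eventually_lt (hre k).continuousAt (hre l).continuousAt h
  have h2 : ∀ᶠ t in 𝓝 t₀, ∀ k l, ((d t₀).1 k).re = ((d t₀).1 l).re →
      ((d t₀).1 k).im < ((d t₀).1 l).im → ((d t).1 k).im < ((d t).1 l).im := by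
    simp only [eventually_all]
    intro k l _ h
    exact ContinuousAt.eventually_lt (him k).continuousAt (him l).continuousAt h
  filter_upwards [h1, h2] with t e1 e2
  exact ⟨(d t).2.2, e1, e2⟩

theorem isPos_of_crossing {n : ℕ} {P q : Conf n} (hP : P.1 = basePt n 1)
    (π₀ : Equiv.Perm (Fin n)) (hq : q.1 = basePt n π₀) (d : Path P q)
    (hpos : ∀ (t₀ : I) (k l : Fin n), ((d t₀).1 k).re = ((d t₀).1 l).re →
      ((d t₀).1 k).im < ((d t₀).1 l).im →
      ∀ᶠ t in 𝓝 t₀, (t₀ < t → ((d t).1 l).re < ((d t).1 k).re) ∧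
        (t < t₀ → ((d t).1 k).re < ((d t).1 l).re)) :
    IsPos P q d := by
  let Q : I → Prop := fun t => ∀ ρ, (d t).1 ∈ Cham n ρ → PosTo (d 0) ρ (d t) (d.subpath 0 t)
  let A : I → Prop := fun t => ∀ s, s ≤ t → Q s
  have hd0 : (d 0).1 ∈ Cham n 1 := by rw [d.source, hP]; exact basePt_mem n 1
  have hQ0 : Q 0 := by
    intro ρ hρ
    obtain rfl := perm_eq_of_Cham hd0 hρ
    refine ⟨d 0, Path.refl _, Path.refl _, by rw [d.source, hP], IsPos.refl _, fun _ => hρ, ?_⟩
    rw [Path.subpath_self, Path.refl_trans_refl]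
  have hA0 : A 0 := by
    intro s hs
    obtain rfl : s = 0 := le_antisymm hs s.2.1
    exact hQ0
  have hloc : ∀ t₀ : I, ∀ᶠ y in 𝓝 t₀, (A t₀ → A y) ∧ (A y → A t₀) := by
    intro t₀
    have h1 : ∀ᶠ t in 𝓝 t₀, ∀ k l, ((d t₀).1 k).re = ((d t₀).1 l).re →
        ((d t₀).1 k).im < ((d t₀).1 l).im →
        (t₀ < t → ((d t).1 l).re < ((d t).1 k).re) ∧
        (t < t₀ → ((d t).1 k).re < ((d t).1 l).re) := by
      simp only [eventually_all]
      exact hpos t₀
    obtain ⟨ε, hε, hball⟩ := Metric.eventually_nhds_iff.1 (h1.and (eventually_Vset d t₀))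
    have hconv : ∀ x y u : I, dist x t₀ < ε → dist y t₀ < ε → x ≤ u → u ≤ y → dist u t₀ < ε := by
      intro x y u hx hy e1 e2
      rw [Subtype.dist_eq, Real.dist_eq, abs_lt] at *
      have e1' : (x : ℝ) ≤ u := e1
      have e2' : (u : ℝ) ≤ y := e2
      constructor <;> linarith [hx.1, hy.2]
    have hgen : ∀ s : I, dist s t₀ < ε → s ≠ t₀ → ∃ ρ, (d s).1 ∈ Cham n ρ := by
      intro s hs hne
      refine exists_Cham _ (d s).2.2 (fun k l hkl => ?_)
      obtain ⟨e1, e2⟩ := hball hs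
      rcases lt_trichotomy ((d t₀).1 k).re ((d t₀).1 l).re with h | h | h
      · exact (e2.2.1 k l h).ne
      · rcases lt_trichotomy ((d t₀).1 k).im ((d t₀).1 l).im with h' | h' | h'
        · rcases lt_or_gt_of_ne hne with h'' | h''
          · exact ((e1 k l h h').2 h'').ne
          · exact ((e1 k l h h').1 h'').ne'
        · exact absurd ((d t₀).2.1 (Complex.ext h h')) hkl
        · rcases lt_or_gt_of_ne hne with h'' | h''
          · exact ((e1 l k h.symm h').2 h'').ne'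
          · exact ((e1 l k h.symm h').1 h'').ne
      · exact (e2.2.1 l k h).ne'
    have hstep : ∀ y₁ y₂ : I, dist y₁ t₀ < ε → dist y₂ t₀ < ε → A y₁ → A y₂ := by
      intro y₁ y₂ hy₁ hy₂ hA s' hs' ρ' hρ'
      by_cases hle : s' ≤ y₁
      · exact hA s' hle ρ' hρ'
      have hlt : y₁ < s' := not_le.1 hle
      have hs'ε : dist s' t₀ < ε := hconv y₁ y₂ s' hy₁ hy₂ hlt.le hs'
      obtain ⟨s, hsy, hsε, ρ, hρ⟩ : ∃ s : I, s ≤ y₁ ∧ dist s t₀ < ε ∧ ∃ ρ, (d s).1 ∈ Cham n ρ := by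
        by_cases e : y₁ = t₀
        · by_cases e0 : y₁ = 0
          · exact ⟨y₁, le_rfl, hy₁, 1, by rw [e0]; exact hd0⟩
          · have hpos' : (0 : ℝ) < y₁ := lt_of_le_of_ne y₁.2.1 (fun h => e0 (Subtype.ext h.symm))
            let s : I := ⟨max 0 ((y₁ : ℝ) - ε / 2), le_max_left _ _,
              max_le zero_le_one (by linarith [y₁.2.2])⟩
            have hs1 : (s : ℝ) < y₁ := max_lt hpos' (by linarith)
            have hs2 : (y₁ : ℝ) - ε / 2 ≤ s := le_max_right _ _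
            have hsε : dist s t₀ < ε := by
              rw [← e, Subtype.dist_eq, Real.dist_eq, abs_lt]
              constructor <;> linarith
            exact ⟨s, hs1.le, hsε, hgen s hsε (by
              rw [← e]; exact fun h => hs1.ne (congrArg Subtype.val h))⟩
        · exact ⟨y₁, le_rfl, hy₁, hgen y₁ hy₁ e⟩
      have hss' : s ≤ s' := hsy.trans hlt.le
      have hδ : ∀ t, ((d.subpath s s') t).1 ∈ Vset n (d t₀).1 := by
        intro t
        have : (d.subpath s s') t ∈ Set.range (d.subpath s s') := Set.mem_range_self t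
        rw [Path.range_subpath_of_le _ _ _ hss'] at this
        obtain ⟨u, hu, e⟩ := this
        rw [← e]
        exact (hball (hconv s s' u hsε hs'ε hu.1 hu.2)).2
      have hres := PosTo.local_step (d t₀).1 (d t₀).2.1 ρ' (hball hs'ε).2 hρ' _ ρ (d s)
        (d.subpath 0 s) (d.subpath s s') le_rfl hρ hδ ?_ (hA s hsy ρ hρ)
      · exact hres.of_homotopic ⟨Path.Homotopy.subpathTransSubpath d 0 s s'⟩
      · intro k l e1 e2
        have f1 := hρ.2 k l e1
        have f2 := hρ'.2 l k e2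
        have hkl : k ≠ l := by rintro rfl; exact lt_irrefl _ e1
        rcases lt_trichotomy ((d t₀).1 k).re ((d t₀).1 l).re with h | h | h
        · exact absurd ((hball hs'ε).2.2.1 k l h) (not_lt.2 f2.le)
        · refine ⟨h, ?_⟩
          rcases lt_trichotomy ((d t₀).1 k).im ((d t₀).1 l).im with h' | h' | h'
          · exact h'
          · exact absurd ((d t₀).2.1 (Complex.ext h h')) hkl
          · exfalso
            rcases lt_trichotomy s t₀ with g | g | g
            · exact absurd (((hball hsε).1 l k h.symm h').2 g) (not_lt.2 f1.le)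
            · rw [g] at f1; exact absurd h f1.ne
            · exact absurd (((hball hs'ε).1 l k h.symm h').1 (g.trans_le hss')) (not_lt.2 f2.le)
        · exact absurd ((hball hsε).2.2.1 l k h) (not_lt.2 f1.le)
    have h0 : dist t₀ t₀ < ε := by simpa using hε
    filter_upwards [Metric.ball_mem_nhds t₀ hε] with y hy
    exact ⟨hstep t₀ y h0 hy, hstep y t₀ hy h0⟩
  have hA1 : A 1 :=
    PreconnectedSpace.induction₂' (fun x y => A x → A y) hloc ⟨fun _ _ _ f g => g ∘ f⟩ 0 1 hA0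
  have hq' : (d 1).1 ∈ Cham n π₀ := by rw [d.target, hq]; exact basePt_mem n π₀
  have hfin : PosTo P π₀ q d :=
    (hA1 1 le_rfl π₀ hq').cast d.source d.target d (fun t => by simp)
  obtain ⟨q', γ, β, e1, e2, e3, e4⟩ := hfin
  obtain rfl : q' = q := Subtype.ext (e1.trans hq.symm)
  refine e2.of_homotopic (Path.Homotopic.trans ?_ e4)
  have : (Path.refl q').Homotopic β :=
    homotopic_of_convex _ (convex_Cham n π₀) (Cham_sub n π₀) _ _
      (fun _ => by simpa using e3 0) e3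
  exact (Path.Homotopic.trans_refl γ).symm.trans ((Path.Homotopic.refl γ).hcomp this)

end Pool.Agent.Lib.MP_813774_gt
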